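import Pool.Agent.H128W.Nec

set_option autoImplicit false

/-! # Algebras of dimension less than the continuum -/

namespace Pool.Agent.H128W

open PowerSeries

universe u v

/-- the branch of the set `U` in the countable tree of pairs `(n, U ∩ n)` -/
noncomputable def node (U : Set ℕ) (n : ℕ) : ℕ :=
  open Classical in Encodable.encode ((n, (Finset.range n).filter (· ∈ U)) : ℕ × Finset ℕ)

lemma node_inj {U V : Set ℕ} {n m : ℕ} (h : node U n = node V m) :
    n = m ∧ ∀ i < n, (i ∈ U ↔ i ∈ V) := by
  classical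
  unfold node at h
  have h1 := Encodable.encode_injective h
  rw [Prod.mk.injEq] at h1
  obtain ⟨rfl, h2⟩ := h1
  refine ⟨rfl, fun i hi => ?_⟩
  have h3 := Finset.ext_iff.1 h2 i
  simp only [Finset.mem_filter, Finset.mem_range] at h3
  constructor
  · intro hU
    exact (h3.1 ⟨hi, hU⟩).2
  · intro hV
    exact (h3.2 ⟨hi, hV⟩).2

lemma exists_node (t : Finset (Set ℕ)) (U : Set ℕ) :
    ∃ N, ∀ V ∈ t, V ≠ U → ∀ n, node U N ≠ node V n := by
  classical
  have h1 : ∀ V : Set ℕ, ∃ i, V ≠ U → ¬ (i ∈ U ↔ i ∈ V) := by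
    intro V
    by_contra hcon
    push Not at hcon
    obtain ⟨hne, -⟩ := hcon 0
    apply hne
    ext i
    exact (hcon i).2.symm
  choose i hi using h1
  refine ⟨t.sup i + 1, fun V hV hne n hn => ?_⟩
  obtain ⟨-, h2⟩ := node_inj hn
  exact hi V hne (h2 (i V) (Nat.lt_succ_of_le (Finset.le_sup hV)))

theorem semisimple_of_rank {K : Type v} [Field K] {A : Type u} [Ring A] [Algebra K A]
    (h : wgldim A⟦X⟧ ≤ 1) (hA : Module.rank K A < Cardinal.continuum) : IsSemisimpleRing A := by
  classical
  by_contra hss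
  obtain ⟨f, hf, h0, ho⟩ := exists_idempotents (regular_of_dim h) hss
  choose s hs1 hs2 using fun U : Set ℕ =>
    separation_of_dim h f hf ho {k | ∀ n, k ≠ node U n}
  have hlin : LinearIndependent K s := by
    rw [linearIndependent_iff']
    intro t c hc U hU
    obtain ⟨N, hN⟩ := exists_node t U
    have e1 := congrArg (fun z => f (node U N) * z * f (node U N)) hc
    simp only [Finset.mul_sum, Finset.sum_mul, mul_zero, zero_mul] at e1
    rw [Finset.sum_eq_single U] at e1
    · rw [mul_assoc, smul_mul_assoc, hs2 U (node U N) (by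
        simp only [Set.mem_setOf_eq, not_forall, not_not]
        exact ⟨N, rfl⟩), mul_smul_comm, hf] at e1
      rcases smul_eq_zero.1 e1 with h1 | h1
      · exact h1
      · exact absurd h1 (h0 _)
    · intro V hV hne
      rw [mul_smul_comm, hs1 V (node U N) (fun n => hN V hV hne n), smul_zero, zero_mul]
    · intro hcon
      exact absurd hU hcon
  have h1 := hlin.cardinal_lift_le_rank
  rw [Cardinal.mk_set, Cardinal.mk_nat, Cardinal.two_power_aleph0, Cardinal.lift_continuum] at h1
  have h2 : Cardinal.lift.{0, u} (Module.rank K A) < Cardinal.continuum := by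
    rw [Cardinal.lift_uzero]
    exact hA
  exact absurd h2 (not_lt.2 h1)

theorem semisimple_of_noidem {A : Type u} [Ring A] (h : wgldim A⟦X⟧ ≤ 1)
    (hA : ¬ ∃ f : ℕ → A, (∀ n, f n * f n = f n) ∧ (∀ n, f n ≠ 0) ∧ ∀ m n, m ≠ n → f m * f n = 0) :
    IsSemisimpleRing A := by
  by_contra hss
  exact hA (exists_idempotents (regular_of_dim h) hss)

end Pool.Agent.H128W
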