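import Mathlib

set_option autoImplicit false

/-! # Flat dimension of modules over noncommutative rings, through the equational criterion -/

namespace Pool.Agent.H128W

open PowerSeries

universe u

/-- flatness of a left module, by the equational criterion: every finite system of linear relations
`r y = 0` with coefficients in `R` between finitely many elements `y` of `M` is trivial, i.e. `y = b z`
with `r b = 0` -/
def Flat (R : Type u) [Ring R] (M : Type u) [AddCommGroup M] [Module R M] : Prop :=
  ∀ (m n : ℕ) (r : Fin m → Fin n → R) (y : Fin n → M),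
    (∀ i, ∑ j, r i j • y j = 0) →
    ∃ (k : ℕ) (b : Fin n → Fin k → R) (z : Fin k → M),
      (∀ j, y j = ∑ l, b j l • z l) ∧ ∀ i l, ∑ j, r i j * b j l = 0

/-- `M` has a flat resolution of length at most `n` -/
def FlatDimLE (R : Type u) [Ring R] : ℕ → ∀ (M : Type u) [AddCommGroup M] [Module R M], Prop
  | 0, M, _, _ => Flat R M
  | n + 1, M, _, _ => ∃ (F : Type u) (_ : AddCommGroup F) (_ : Module R F) (p : F →ₗ[R] M),
      Function.Surjective p ∧ Flat R F ∧ FlatDimLE R n (LinearMap.ker p)

/-- the flat dimension of a left module -/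
noncomputable def flatDim (R : Type u) [Ring R] (M : Type u) [AddCommGroup M] [Module R M] : ℕ∞ :=
  sInf {d : ℕ∞ | ∃ n : ℕ, d = n ∧ FlatDimLE R n M}

/-- the weak global dimension: the supremum of the flat dimensions of all (left) modules -/
noncomputable def wgldim (R : Type u) [Ring R] : ℕ∞ :=
  ⨆ (M : Type u) (_ : AddCommGroup M) (_ : Module R M), flatDim R M

section general

variable {R : Type u} [Ring R]

lemma flat_ker_id (M : Type u) [AddCommGroup M] [Module R M] :
    Flat R (LinearMap.ker (LinearMap.id : M →ₗ[R] M)) := by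
  intro m n r y _
  refine ⟨0, fun _ _ => 0, fun i => 0, fun j => ?_, fun _ l => l.elim0⟩
  have : (y j : M) = 0 := LinearMap.mem_ker.1 (y j).2
  rw [Finset.univ_eq_empty, Finset.sum_empty]
  exact Subtype.ext this

lemma dim_one_of_flat {M : Type u} [AddCommGroup M] [Module R M] (h : Flat R M) :
    FlatDimLE R 1 M :=
  ⟨M, inferInstance, inferInstance, LinearMap.id, fun x => ⟨x, rfl⟩, h, flat_ker_id M⟩

lemma flatDim_le_one {M : Type u} [AddCommGroup M] [Module R M] :
    flatDim R M ≤ 1 ↔ FlatDimLE R 1 M := by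
  constructor
  · intro h
    by_contra hcon
    have h2 : (2 : ℕ∞) ≤ flatDim R M := by
      apply le_sInf
      rintro d ⟨n, rfl, hn⟩
      rcases n with _ | _ | n
      · exact absurd (dim_one_of_flat hn) hcon
      · exact absurd hn hcon
      · exact_mod_cast (by omega : 2 ≤ n + 1 + 1)
    have : (2 : ℕ∞) ≤ 1 := h2.trans h
    exact absurd this (by decide)
  · intro h
    exact sInf_le ⟨1, by simp, h⟩

lemma flatDim_le_zero {M : Type u} [AddCommGroup M] [Module R M] :
    flatDim R M ≤ 0 ↔ Flat R M := by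
  constructor
  · intro h
    by_contra hcon
    have h2 : (1 : ℕ∞) ≤ flatDim R M := by
      apply le_sInf
      rintro d ⟨n, rfl, hn⟩
      rcases n with _ | n
      · exact absurd hn hcon
      · exact_mod_cast (by omega : 1 ≤ n + 1)
    have : (1 : ℕ∞) ≤ 0 := h2.trans h
    exact absurd this (by decide)
  · intro h
    exact sInf_le ⟨0, by simp, h⟩

lemma wgldim_le_one : wgldim R ≤ 1 ↔
    ∀ (M : Type u) (_ : AddCommGroup M) (_ : Module R M), FlatDimLE R 1 M := by
  unfold wgldim
  simp only [iSup_le_iff]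
  exact forall_congr' fun M => forall_congr' fun _ => forall_congr' fun _ => flatDim_le_one

lemma wgldim_le_zero : wgldim R ≤ 0 ↔
    ∀ (M : Type u) (_ : AddCommGroup M) (_ : Module R M), Flat R M := by
  unfold wgldim
  simp only [iSup_le_iff]
  exact forall_congr' fun M => forall_congr' fun _ => forall_congr' fun _ => flatDim_le_zero

lemma wgldim_eq_one : wgldim R = 1 ↔ wgldim R ≤ 1 ∧ ¬ wgldim R ≤ 0 := by
  constructor
  · intro h
    rw [h]
    exact ⟨le_rfl, by decide⟩
  · rintro ⟨h1, h2⟩
    apply le_antisymm h1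
    rw [not_le] at h2
    exact Order.one_le_iff_pos.2 h2

/-- weak global dimension at most one: relations split -/
theorem sep_of_dim (h : wgldim R ≤ 1) {m : ℕ} (f g : Fin m → R) (hfg : ∑ i, f i * g i = 0) :
    ∃ S : Fin m → Fin m → R, (∀ j, ∑ i, f i * S i j = 0) ∧ ∀ i, g i = ∑ j, S i j * g j := by
  rw [wgldim_le_one] at h
  set L : Submodule R R := Submodule.span R (Set.range g) with hL
  obtain ⟨F, _, _, p, hp, hF, hK⟩ := h (R ⧸ L) inferInstance inferInstance
  obtain ⟨φ, hφ⟩ := hp (L.mkQ 1)
  have hg : ∀ i, p (g i • φ) = 0 := by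
    intro i
    rw [map_smul, hφ, ← map_smul, smul_eq_mul, mul_one]
    exact (Submodule.Quotient.mk_eq_zero L).2 (Submodule.subset_span ⟨i, rfl⟩)
  obtain ⟨k, c, κ, hκ, hc⟩ := hK 1 m (fun _ i => f i) (fun i => ⟨g i • φ, hg i⟩) (by
    intro _
    apply Subtype.ext
    rw [Submodule.coe_sum]
    simp only [Submodule.coe_smul, smul_smul]
    rw [← Finset.sum_smul, hfg, zero_smul]
    rfl)
  have hκ' : ∀ i, g i • φ = ∑ l, c i l • (κ l : F) := by
    intro i
    have := congrArg Subtype.val (hκ i)
    rw [Submodule.coe_sum] at this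
    exact this
  have hc' : ∀ l, ∑ i, f i * c i l = 0 := by
    intro l
    exact hc 0 l
  obtain ⟨q, b, z, hz, hb⟩ := hF m (k + 1) (fun i => Fin.cons (g i) (fun l => - c i l))
    (Fin.cons φ (fun l => (κ l : F))) (by
    intro i
    rw [Fin.sum_univ_succ]
    simp only [Fin.cons_zero, Fin.cons_succ, neg_smul]
    rw [Finset.sum_neg_distrib, hκ' i, add_neg_cancel])
  have hz0 : φ = ∑ t, b 0 t • z t := by simpa using hz 0
  have hzs : ∀ l : Fin k, (κ l : F) = ∑ t, b l.succ t • z t := fun l => by simpa using hz l.succ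
  have hb' : ∀ i t, g i * b 0 t = ∑ l, c i l * b l.succ t := by
    intro i t
    have := hb i t
    rw [Fin.sum_univ_succ] at this
    simp only [Fin.cons_zero, Fin.cons_succ, neg_mul, Finset.sum_neg_distrib] at this
    exact (sub_eq_zero.1 (by rw [sub_eq_add_neg]; exact this))
  choose τ hτ using fun t => L.mkQ_surjective (p (z t))
  have h0 : (1 - ∑ t, b 0 t * τ t) ∈ L := by
    rw [← Submodule.Quotient.mk_eq_zero, ← Submodule.mkQ_apply, map_sub, ← hφ, hz0, map_sum, map_sum,
      sub_eq_zero]
    refine Finset.sum_congr rfl fun t _ => ?_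
    rw [map_smul, ← hτ, ← smul_eq_mul, map_smul]
  have hs : ∀ l : Fin k, (∑ t, b l.succ t * τ t) ∈ L := by
    intro l
    rw [← Submodule.Quotient.mk_eq_zero, ← Submodule.mkQ_apply, map_sum]
    have h1 : p (κ l : F) = 0 := (κ l).2
    rw [hzs l, map_sum] at h1
    rw [← h1]
    refine Finset.sum_congr rfl fun t _ => ?_
    rw [map_smul, ← hτ, ← smul_eq_mul, map_smul]
  obtain ⟨s0, hs0⟩ := (Submodule.mem_span_range_iff_exists_fun R).1 h0
  choose s hs using fun l => (Submodule.mem_span_range_iff_exists_fun R).1 (hs l)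
  simp only [smul_eq_mul] at hs0 hs
  refine ⟨fun i j => ∑ l, c i l * s l j + g i * s0 j, fun j => ?_, fun i => ?_⟩
  · simp only [mul_add, Finset.mul_sum, Finset.sum_add_distrib]
    rw [Finset.sum_comm]
    have h1 : ∀ l, ∑ i, f i * (c i l * s l j) = 0 := by
      intro l
      simp only [← mul_assoc]
      rw [← Finset.sum_mul, hc' l, zero_mul]
    simp only [h1, Finset.sum_const_zero, zero_add]
    simp only [← mul_assoc]
    rw [← Finset.sum_mul, hfg, zero_mul]
  · simp only [add_mul, Finset.sum_add_distrib, Finset.sum_mul]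
    rw [Finset.sum_comm]
    have h1 : ∀ l, ∑ j, c i l * s l j * g j = c i l * ∑ t, b l.succ t * τ t := by
      intro l
      rw [← hs l, Finset.mul_sum]
      simp only [mul_assoc]
    have h2 : ∑ j, g i * s0 j * g j = g i * (1 - ∑ t, b 0 t * τ t) := by
      rw [← hs0, Finset.mul_sum]
      simp only [mul_assoc]
    simp only [h1, h2, Finset.mul_sum]
    rw [Finset.sum_comm, mul_sub, mul_one, Finset.mul_sum]
    have h3 : ∀ t, ∑ l, c i l * (b l.succ t * τ t) = g i * (b 0 t * τ t) := by
      intro t
      simp only [← mul_assoc]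
      rw [← Finset.sum_mul, ← hb']
    simp only [h3]
    abel

end general

end Pool.Agent.H128W
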