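import Pool.Agent.H128W.Flat

set_option autoImplicit false

/-! # Necessary conditions -/

namespace Pool.Agent.H128W

open PowerSeries

universe u

variable {A : Type u} [Ring A]

/-- if the power series ring has weak global dimension at most one, the base is von Neumann regular -/
theorem regular_of_dim (h : wgldim A⟦X⟧ ≤ 1) (a : A) : ∃ t : A, a * t * a = a := by
  obtain ⟨S, h1, h2⟩ := sep_of_dim h (m := 2) ![(X : A⟦X⟧), - C a] ![C a, X] (by
    rw [Fin.sum_univ_two]
    simp only [Matrix.cons_val_zero, Matrix.cons_val_one]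
    rw [X_mul, neg_mul, add_neg_cancel])
  have e1 := h1 0
  have e2 := h2 0
  rw [Fin.sum_univ_two] at e1 e2
  simp only [Matrix.cons_val_zero, Matrix.cons_val_one] at e1 e2
  have f1 := congrArg (coeff 1) e1
  have f2 := congrArg (coeff 0) e2
  have f0 := coeff_succ_X_mul 0 (S 0 0)
  rw [zero_add] at f0
  rw [map_add, neg_mul, map_neg, coeff_C_mul, map_zero, f0] at f1
  rw [map_add, coeff_mul_C, coeff_zero_mul_X, add_zero, coeff_zero_C] at f2
  refine ⟨coeff 1 (S 1 0), ?_⟩
  have f3 : a * coeff 1 (S 1 0) = coeff 0 (S 0 0) := by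
    rw [← sub_eq_zero, ← neg_sub, sub_eq_add_neg, f1, neg_zero]
  rw [f3, ← f2]

/-- if the power series ring has weak global dimension at most one, then every set of members of a
countable orthogonal family of idempotents can be separated from the other members -/
theorem separation_of_dim (h : wgldim A⟦X⟧ ≤ 1) (f : ℕ → A) (hf : ∀ n, f n * f n = f n)
    (ho : ∀ m n, m ≠ n → f m * f n = 0) (T : Set ℕ) :
    ∃ s : A, (∀ n ∈ T, f n * s = 0) ∧ ∀ n ∉ T, s * f n = f n := by
  classical
  set F : A⟦X⟧ := PowerSeries.mk fun n => if n ∈ T then f n else 0 with hF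
  set G : A⟦X⟧ := PowerSeries.mk fun n => if n ∈ T then 0 else f n with hG
  have hFG : F * G = 0 := by
    ext n
    rw [coeff_mul, map_zero]
    apply Finset.sum_eq_zero
    rintro ⟨i, j⟩ _
    simp only [hF, hG, coeff_mk]
    by_cases hi : i ∈ T <;> by_cases hj : j ∈ T <;> simp only [hi, hj, if_true, if_false, mul_zero, zero_mul]
    exact ho i j (fun hij => hj (hij ▸ hi))
  obtain ⟨S, h1, h2⟩ := sep_of_dim h (m := 1) (fun _ => F) (fun _ => G) (by
    rw [Fin.sum_univ_one]
    exact hFG)
  have e1 : F * S 0 0 = 0 := by simpa using h1 0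
  have e2 : G = S 0 0 * G := by simpa using h2 0
  refine ⟨coeff 0 (S 0 0), fun n hn => ?_, fun n hn => ?_⟩
  · have := congrArg (coeff n) e1
    rw [coeff_mul, map_zero] at this
    have h3 := congrArg (fun z => f n * z) this
    simp only [Finset.mul_sum, mul_zero] at h3
    rw [Finset.sum_eq_single (n, 0)] at h3
    · simp only [hF, coeff_mk, hn, if_true] at h3
      rw [← mul_assoc, hf] at h3
      exact h3
    · rintro ⟨i, j⟩ hij hne
      simp only [hF, coeff_mk]
      by_cases hi : i ∈ T
      · simp only [hi, if_true]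
        have : n ≠ i := by
          rintro rfl
          apply hne
          have := Finset.HasAntidiagonal.mem_antidiagonal.1 hij
          simp only at this
          simp only [Prod.mk.injEq, true_and]
          omega
        rw [← mul_assoc, ho n i this, zero_mul]
      · simp only [hi, if_false, zero_mul, mul_zero]
    · intro hcon
      exact absurd (Finset.HasAntidiagonal.mem_antidiagonal.2 (by simp)) hcon
  · have := congrArg (coeff n) e2
    rw [coeff_mul] at this
    have h3 := congrArg (fun z => z * f n) this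
    simp only [Finset.sum_mul] at h3
    rw [Finset.sum_eq_single (0, n)] at h3
    · simp only [hG, coeff_mk, hn, if_false] at h3
      rw [mul_assoc, hf] at h3
      exact h3.symm
    · rintro ⟨i, j⟩ hij hne
      simp only [hG, coeff_mk]
      by_cases hj : j ∈ T
      · simp only [hj, if_true, mul_zero, zero_mul]
      · simp only [hj, if_false]
        have : j ≠ n := by
          rintro rfl
          apply hne
          have := Finset.HasAntidiagonal.mem_antidiagonal.1 hij
          simp only at this
          simp only [Prod.mk.injEq, and_true]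
          omega
        rw [mul_assoc, ho j n this, mul_zero]
    · intro hcon
      exact absurd (Finset.HasAntidiagonal.mem_antidiagonal.2 (by simp)) hcon

/-- a regular ring that is not semisimple has an infinite orthogonal family of non-zero idempotents -/
theorem exists_idempotents (hreg : ∀ a : A, ∃ t : A, a * t * a = a) (hss : ¬ IsSemisimpleRing A) :
    ∃ f : ℕ → A, (∀ n, f n * f n = f n) ∧ (∀ n, f n ≠ 0) ∧ ∀ m n, m ≠ n → f m * f n = 0 := by
  classical
  -- a left ideal that is not generated by an idempotent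
  obtain ⟨I, hI⟩ : ∃ I : Ideal A, ∀ e : A, e * e = e → e ∈ I → ∃ b ∈ I, b * e ≠ b := by
    by_contra hcon
    push Not at hcon
    apply hss
    have : ComplementedLattice (Submodule A A) := by
      constructor
      intro I
      obtain ⟨e, he, heI, hall⟩ := hcon I
      refine ⟨Ideal.span {1 - e}, ?_, ?_⟩
      · rw [disjoint_iff, eq_bot_iff]
        rintro x ⟨hx1, hx2⟩
        rw [SetLike.mem_coe, Ideal.mem_span_singleton'] at hx2
        obtain ⟨c, rfl⟩ := hx2
        rw [Submodule.mem_bot]
        have h1 := hall _ hx1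
        rw [mul_assoc, sub_mul, one_mul, he, sub_self, mul_zero] at h1
        exact h1.symm
      · rw [codisjoint_iff, eq_top_iff]
        rintro x -
        rw [Submodule.mem_sup]
        refine ⟨x * e, I.smul_mem x heI, x * (1 - e), ?_, ?_⟩
        · exact Ideal.mem_span_singleton'.2 ⟨x, rfl⟩
        · rw [mul_sub, mul_one, add_sub_cancel]
    exact (isSemisimpleModule_iff A A).2 this
  -- one step
  have step : ∀ E : {e : A // e * e = e ∧ e ∈ I}, ∃ f : A, f * f = f ∧ f ≠ 0 ∧ f ∈ I ∧
      f * E.1 = 0 ∧ E.1 * f = 0 := by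
    rintro ⟨e, he, heI⟩
    obtain ⟨b, hbI, hb⟩ := hI e he heI
    obtain ⟨t, ht⟩ := hreg (b - b * e)
    set c := b - b * e with hc
    have hc0 : c ≠ 0 := fun h0 => hb (sub_eq_zero.1 h0).symm
    have hce : c * e = 0 := by rw [hc, sub_mul, mul_assoc, he, sub_self]
    have hcI : c ∈ I := I.sub_mem hbI (I.mul_mem_left b heI)
    have hf0 : (t * c) * (t * c) = t * c := by
      rw [mul_assoc, ← mul_assoc c t c, ht]
    have hf0e : (t * c) * e = 0 := by rw [mul_assoc, hce, mul_zero]
    refine ⟨(1 - e) * (t * c), ?_, ?_, ?_, ?_, ?_⟩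
    · rw [mul_assoc, ← mul_assoc (t * c) (1 - e) (t * c), mul_sub, mul_one, hf0e, sub_zero, hf0]
    · intro h0
      apply hc0
      have h1 : c * ((1 - e) * (t * c)) = c := by
        rw [← mul_assoc, mul_sub, mul_one, hce, sub_zero, ← mul_assoc, ht]
      rw [← h1, h0, mul_zero]
    · exact I.mul_mem_left _ (I.mul_mem_left _ hcI)
    · rw [mul_assoc, hf0e, mul_zero]
    · show e * ((1 - e) * (t * c)) = 0
      rw [← mul_assoc, mul_sub, mul_one, he, sub_self, zero_mul]
  choose φ h1 h2 h3 h4 h5 using step
  let nxt : {e : A // e * e = e ∧ e ∈ I} → {e : A // e * e = e ∧ e ∈ I} := fun E =>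
    ⟨E.1 + φ E, by
      rw [add_mul, mul_add, mul_add, E.2.1, h1, h4, h5, add_zero, zero_add], I.add_mem E.2.2 (h3 E)⟩
  let Es : ℕ → {e : A // e * e = e ∧ e ∈ I} := fun n => nxt^[n] ⟨0, by simp, I.zero_mem⟩
  have hEs : ∀ n, (Es (n + 1)).1 = (Es n).1 + φ (Es n) := by
    intro n
    simp only [Es, Function.iterate_succ_apply']
    rfl
  -- later idempotents absorb the earlier ones
  have habs : ∀ n k, (Es (n + 1 + k)).1 * φ (Es n) = φ (Es n) ∧ φ (Es n) * (Es (n + 1 + k)).1 = φ (Es n) := by
    intro n k
    induction k with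
    | zero =>
      rw [add_zero, hEs, add_mul, mul_add, h4, h5, h1]
      exact ⟨zero_add _, zero_add _⟩
    | succ k ih =>
      have e : n + 1 + (k + 1) = (n + 1 + k) + 1 := by ring
      rw [e, hEs]
      have z1 : φ (Es (n + 1 + k)) * φ (Es n) = 0 := by
        rw [← ih.1, ← mul_assoc, h4, zero_mul]
      have z2 : φ (Es n) * φ (Es (n + 1 + k)) = 0 := by
        rw [← ih.2, mul_assoc, h5, mul_zero]
      rw [add_mul, mul_add, z1, z2, ih.1, ih.2]
      exact ⟨add_zero _, add_zero _⟩
  have key : ∀ n k, φ (Es n) * φ (Es (n + 1 + k)) = 0 ∧ φ (Es (n + 1 + k)) * φ (Es n) = 0 := by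
    intro n k
    have ih := habs n k
    constructor
    · rw [← ih.2, mul_assoc, h5, mul_zero]
    · rw [← ih.1, ← mul_assoc, h4, zero_mul]
  refine ⟨fun n => φ (Es n), fun n => h1 _, fun n => h2 _, fun m n hmn => ?_⟩
  rcases lt_or_gt_of_ne hmn with h | h
  · obtain ⟨k, rfl⟩ := Nat.exists_eq_add_of_le (Nat.succ_le_of_lt h)
    exact (key m k).1
  · obtain ⟨k, rfl⟩ := Nat.exists_eq_add_of_le (Nat.succ_le_of_lt h)
    exact (key n k).2

theorem semisimple_of_dim (h : wgldim A⟦X⟧ ≤ 1) (hA : Cardinal.mk A < Cardinal.continuum) :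
    IsSemisimpleRing A := by
  by_contra hss
  obtain ⟨f, hf, h0, ho⟩ := exists_idempotents (regular_of_dim h) hss
  choose s hs1 hs2 using separation_of_dim h f hf ho
  have hinj : Function.Injective s := by
    intro T T' hTT
    have aux : ∀ U V : Set ℕ, s U = s V → U ⊆ V := by
      intro U V hUV n hn
      by_contra hnV
      have e1 := hs1 U n hn
      have e2 := hs2 V n hnV
      rw [hUV] at e1
      apply h0 n
      rw [← hf n]
      calc f n * f n = f n * (s V * f n) := by rw [e2]
        _ = 0 := by rw [← mul_assoc, e1, zero_mul]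
    exact Set.Subset.antisymm (aux T T' hTT) (aux T' T hTT.symm)
  have h1 := Cardinal.lift_mk_le_lift_mk_of_injective hinj
  rw [Cardinal.mk_set, Cardinal.mk_nat, Cardinal.two_power_aleph0, Cardinal.lift_continuum,
    Cardinal.lift_uzero] at h1
  exact absurd hA (not_lt.2 h1)

end Pool.Agent.H128W
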