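import Pool.Agent.H128W.Mat
import Pool.Agent.H128W.Nec

set_option autoImplicit false

/-! # Rings with fewer than continuum many idempotents -/

namespace Pool.Agent.H128W

open PowerSeries

universe u

theorem semisimple_of_idem {A : Type u} [Ring A] (h : wgldim A⟦X⟧ ≤ 1)
    (hA : Cardinal.mk {z : A // z * z = z} < Cardinal.continuum) : IsSemisimpleRing A := by
  classical
  by_contra hss
  obtain ⟨f, hf, h0, ho⟩ := exists_idempotents (regular_of_dim h) hss
  have hsep : Sep A⟦X⟧ := fun m f g hfg => sep_of_dim h f g hfg
  have key : ∀ T : Set ℕ, ∃ z : {z : A // z * z = z},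
      (∀ n ∈ T, f n * z.1 = 0) ∧ ∀ n ∉ T, z.1 * f n = f n := by
    intro T
    obtain ⟨z, hz, h1, h2⟩ := interpolation_of_sep hsep (fun n => if n ∈ T then f n else 0)
      (fun n => if n ∈ T then 0 else f n) (by
        intro i j
        by_cases hi : i ∈ T <;> by_cases hj : j ∈ T <;>
          simp only [hi, hj, if_true, if_false, mul_zero, zero_mul]
        exact ho i j (fun hij => hj (hij ▸ hi)))
    refine ⟨⟨z, hz⟩, fun n hn => ?_, fun n hn => ?_⟩
    · have := h1 n
      simp only [hn, if_true] at this
      exact this
    · have := h2 n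
      simp only [hn, if_false] at this
      exact this
  choose s hs1 hs2 using key
  have hinj : Function.Injective s := by
    intro T T' hTT
    have aux : ∀ U V : Set ℕ, s U = s V → U ⊆ V := by
      intro U V hUV n hn
      by_contra hnV
      have e1 := hs1 U n hn
      have e2 := hs2 V n hnV
      rw [hUV] at e1
      apply h0 n
      rw [← hf n]
      calc f n * f n = f n * ((s V).1 * f n) := by rw [e2]
        _ = 0 := by rw [← mul_assoc, e1, zero_mul]
    exact Set.Subset.antisymm (aux T T' hTT) (aux T' T hTT.symm)
  have h1 := Cardinal.lift_mk_le_lift_mk_of_injective hinj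
  rw [Cardinal.mk_set, Cardinal.mk_nat, Cardinal.two_power_aleph0, Cardinal.lift_continuum,
    Cardinal.lift_uzero] at h1
  exact absurd hA (not_lt.2 h1)

end Pool.Agent.H128W
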