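import Pool.Agent.H128W.Mat

set_option autoImplicit false

/-! # Countably injective rings: the separation condition is sufficient -/

namespace Pool.Agent.H128W

open PowerSeries

universe u

/-- von Neumann regular -/
def Reg (B : Type u) [Ring B] : Prop := ∀ a : B, ∃ t, a * t * a = a

/-- countable separation by idempotents -/
def Interp (B : Type u) [Ring B] : Prop :=
  ∀ a b : ℕ → B, (∀ i j, a i * b j = 0) →
    ∃ z : B, z * z = z ∧ (∀ i, a i * z = 0) ∧ ∀ j, z * b j = b j

/-- homomorphisms from the right ideals generated by countably many orthogonal idempotents to `B` are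
left multiplications -/
def RightInj (B : Type u) [Ring B] : Prop :=
  ∀ e c : ℕ → B, (∀ n, e n * e n = e n) → (∀ m n, m ≠ n → e m * e n = 0) →
    ∃ s : B, ∀ n, s * e n = c n * e n

section core

variable {B : Type u} [Ring B]

/-- one step of the normal form -/
lemma normal_step (hreg : Reg B) (E : B) (Q v : B⟦X⟧) (hE : E * E = E) (hQ : constantCoeff Q = E) :
    ∃ (e : B) (q w : B⟦X⟧), e * e = e ∧ e * E = 0 ∧ E * e = 0 ∧ constantCoeff q = e ∧
      q * C e = q ∧ (∀ f : B⟦X⟧, f * Q = 0 → f * v = 0 → f * q = 0 ∧ f * w = 0) ∧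
      ∀ f : B⟦X⟧, f * Q = 0 → f * q = 0 → f * v = X * (f * w) := by
  set v' : B⟦X⟧ := v - Q * v with hv'
  set c : B := (1 - E) * constantCoeff v with hc
  have hcv : constantCoeff v' = c := by
    rw [hv', map_sub, map_mul, hQ, hc, sub_mul, one_mul]
  obtain ⟨t, ht⟩ := hreg c
  have hEc : E * c = 0 := by rw [hc, ← mul_assoc, mul_sub, mul_one, hE, sub_self, zero_mul]
  have h1c : (1 - E) * c = c := by rw [sub_mul, one_mul, hEc, sub_zero]
  set e : B := c * t * (1 - E) with he
  have hee : e * e = e := by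
    rw [he]
    calc c * t * (1 - E) * (c * t * (1 - E)) = c * t * ((1 - E) * c) * t * (1 - E) := by
          simp only [mul_assoc]
      _ = c * t * (1 - E) := by rw [h1c, ht]
  have heE : e * E = 0 := by
    rw [he, mul_assoc, sub_mul, one_mul, hE, sub_self, mul_zero]
  have hEe : E * e = 0 := by
    rw [he, ← mul_assoc, ← mul_assoc, hEc, zero_mul, zero_mul]
  have hec : e * c = c := by
    rw [he, mul_assoc, h1c, ht]
  set q : B⟦X⟧ := v' * C (t * (1 - E) * e) with hq
  have hq0 : constantCoeff q = e := by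
    rw [hq, map_mul, hcv, constantCoeff_C]
    calc c * (t * (1 - E) * e) = (c * t * (1 - E)) * e := by simp only [mul_assoc]
      _ = e := by rw [← he, hee]
  have hqe : q * C e = q := by
    rw [hq, mul_assoc, ← map_mul, mul_assoc, hee]
  set v'' : B⟦X⟧ := v' - q * v' with hv''
  have hv0 : constantCoeff v'' = 0 := by
    rw [hv'', map_sub, map_mul, hcv, hq0, hec, sub_self]
  have h1 := eq_X_mul_shift_add_const v''
  rw [hv0, map_zero, add_zero] at h1
  set w : B⟦X⟧ := PowerSeries.mk fun p => coeff (p + 1) v'' with hw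
  refine ⟨e, q, w, hee, heE, hEe, hq0, hqe, fun f hfQ hfv => ?_, fun f hfQ hfq => ?_⟩
  · have h2 : f * v' = 0 := by rw [hv', mul_sub, hfv, ← mul_assoc, hfQ, zero_mul, sub_zero]
    have h3 : f * q = 0 := by rw [hq, ← mul_assoc, h2, zero_mul]
    refine ⟨h3, X_cancel ?_⟩
    rw [← mul_assoc, X_mul, mul_assoc, ← h1, hv'', mul_sub, h2, ← mul_assoc, h3, zero_mul, sub_zero]
  · have h2 : f * v = f * v'' := by
      rw [hv'', mul_sub, ← mul_assoc f q, hfq, zero_mul, sub_zero, hv', mul_sub, ← mul_assoc f Q,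
        hfQ, zero_mul, sub_zero]
    rw [h2, h1, ← mul_assoc, ← mul_assoc, X_mul]

/-- the normal form of a sequence of power series over a regular ring -/
theorem normal_form (hreg : Reg B) (g : ℕ → B⟦X⟧) :
    ∃ (e : ℕ → B) (q : ℕ → B⟦X⟧), (∀ n, e n * e n = e n) ∧ (∀ m n, m ≠ n → e m * e n = 0) ∧
      (∀ n, constantCoeff (q n) = e n) ∧ (∀ n, q n * C (e n) = q n) ∧
      (∀ f : B⟦X⟧, (∀ j, f * g j = 0) → ∀ n, f * q n = 0) ∧
      ∀ f : B⟦X⟧, (∀ n, f * q n = 0) → ∀ j, f * g j = 0 := by
  classical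
  choose! e0 q0 w0 h1 h2 h3 h4 h5 h6 h7 using normal_step (B := B) hreg
  -- states: (E, Q, W)
  let St := {p : B × B⟦X⟧ × (ℕ → B⟦X⟧) // p.1 * p.1 = p.1 ∧ constantCoeff p.2.1 = p.1}
  let ee : ℕ → St → B := fun n p => e0 p.1.1 p.1.2.1 (p.1.2.2 (Nat.unpair n).1)
  let qq : ℕ → St → B⟦X⟧ := fun n p => q0 p.1.1 p.1.2.1 (p.1.2.2 (Nat.unpair n).1)
  let ww : ℕ → St → B⟦X⟧ := fun n p => w0 p.1.1 p.1.2.1 (p.1.2.2 (Nat.unpair n).1)
  let nxt : ℕ → St → St := fun n p =>
    ⟨(p.1.1 + ee n p, p.1.2.1 + qq n p, Function.update p.1.2.2 (Nat.unpair n).1 (ww n p)), by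
      constructor
      · show (p.1.1 + ee n p) * (p.1.1 + ee n p) = p.1.1 + ee n p
        rw [add_mul, mul_add, mul_add, p.2.1, h3 _ _ _ p.2.1 p.2.2, h2 _ _ _ p.2.1 p.2.2,
          h1 _ _ _ p.2.1 p.2.2, add_zero, zero_add]
      · show constantCoeff (p.1.2.1 + qq n p) = p.1.1 + ee n p
        rw [map_add, p.2.2, h4 _ _ _ p.2.1 p.2.2]⟩
  let P : ℕ → St := fun n => Nat.rec ⟨(0, 0, g), by simp, by simp⟩ (fun n p => nxt n p) n
  have hP : ∀ n, P (n + 1) = nxt n (P n) := fun n => rfl
  let f : ℕ → B := fun n => ee n (P n)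
  let q : ℕ → B⟦X⟧ := fun n => qq n (P n)
  let Es : ℕ → B := fun n => (P n).1.1
  have hEs : ∀ n, Es (n + 1) = Es n + f n := fun n => rfl
  have f1 : ∀ n, f n * f n = f n := fun n => h1 _ _ _ (P n).2.1 (P n).2.2
  have f2 : ∀ n, f n * Es n = 0 := fun n => h2 _ _ _ (P n).2.1 (P n).2.2
  have f3 : ∀ n, Es n * f n = 0 := fun n => h3 _ _ _ (P n).2.1 (P n).2.2
  have habs : ∀ n k, Es (n + 1 + k) * f n = f n ∧ f n * Es (n + 1 + k) = f n := by
    intro n k
    induction k with
    | zero =>
      rw [add_zero, hEs, add_mul, mul_add, f2, f3, f1]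
      exact ⟨zero_add _, zero_add _⟩
    | succ k ih =>
      have e : n + 1 + (k + 1) = (n + 1 + k) + 1 := by ring
      rw [e, hEs]
      have z1 : f (n + 1 + k) * f n = 0 := by
        rw [← ih.1, ← mul_assoc, f2, zero_mul]
      have z2 : f n * f (n + 1 + k) = 0 := by
        rw [← ih.2, mul_assoc, f3, mul_zero]
      rw [add_mul, mul_add, z1, z2, ih.1, ih.2]
      exact ⟨add_zero _, add_zero _⟩
  have key : ∀ n k, f n * f (n + 1 + k) = 0 ∧ f (n + 1 + k) * f n = 0 := by
    intro n k
    have ih := habs n k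
    constructor
    · rw [← ih.2, mul_assoc, f3, mul_zero]
    · rw [← ih.1, ← mul_assoc, f2, zero_mul]
  refine ⟨f, q, f1, fun m n hmn => ?_, fun n => h4 _ _ _ (P n).2.1 (P n).2.2,
    fun n => h5 _ _ _ (P n).2.1 (P n).2.2, fun r hr => ?_, fun r hr => ?_⟩
  · rcases lt_or_gt_of_ne hmn with h | h
    · obtain ⟨k, rfl⟩ := Nat.exists_eq_add_of_le (Nat.succ_le_of_lt h)
      exact (key m k).1
    · obtain ⟨k, rfl⟩ := Nat.exists_eq_add_of_le (Nat.succ_le_of_lt h)
      exact (key n k).2
  · -- invariant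
    have hinv : ∀ n, r * (P n).1.2.1 = 0 ∧ ∀ j, r * (P n).1.2.2 j = 0 := by
      intro n
      induction n with
      | zero => exact ⟨mul_zero r, hr⟩
      | succ n ih =>
        obtain ⟨i1, i2⟩ := ih
        have h8 := h6 _ _ ((P n).1.2.2 (Nat.unpair n).1) (P n).2.1 (P n).2.2 r i1 (i2 _)
        rw [hP]
        constructor
        · show r * ((P n).1.2.1 + qq n (P n)) = 0
          rw [mul_add, i1, h8.1, add_zero]
        · intro j
          show r * Function.update (P n).1.2.2 (Nat.unpair n).1 (ww n (P n)) j = 0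
          by_cases hj : j = (Nat.unpair n).1
          · subst hj
            rw [Function.update_self]
            exact h8.2
          · rw [Function.update_of_ne hj]
            exact i2 j
    intro n
    exact (h6 _ _ ((P n).1.2.2 (Nat.unpair n).1) (P n).2.1 (P n).2.2 r (hinv n).1 ((hinv n).2 _)).1
  · have hQ : ∀ n, r * (P n).1.2.1 = 0 := by
      intro n
      induction n with
      | zero => exact mul_zero r
      | succ n ih =>
        show r * ((P n).1.2.1 + q n) = 0
        rw [mul_add, ih, hr, add_zero]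
    have hstep : ∀ n, r * (P n).1.2.2 (Nat.unpair n).1 = X * (r * (P (n + 1)).1.2.2 (Nat.unpair n).1) := by
      intro n
      have h8 := h7 _ _ ((P n).1.2.2 (Nat.unpair n).1) (P n).2.1 (P n).2.2 r (hQ n) (hr n)
      have h9 : (P (n + 1)).1.2.2 (Nat.unpair n).1 = ww n (P n) := by
        show Function.update (P n).1.2.2 (Nat.unpair n).1 (ww n (P n)) (Nat.unpair n).1 = _
        rw [Function.update_self]
      rw [h9]
      exact h8
    have hstay : ∀ n j, j ≠ (Nat.unpair n).1 → (P (n + 1)).1.2.2 j = (P n).1.2.2 j := by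
      intro n j hj
      show Function.update (P n).1.2.2 (Nat.unpair n).1 (ww n (P n)) j = _
      rw [Function.update_of_ne hj]
    -- the next treatment of `j`
    have hnext : ∀ j d n, (Nat.unpair (n + d)).1 = j →
        ∃ n', n ≤ n' ∧ (Nat.unpair n').1 = j ∧ (P n').1.2.2 j = (P n).1.2.2 j := by
      intro j d
      induction d with
      | zero => exact fun n hn => ⟨n, le_rfl, hn, rfl⟩
      | succ d ih =>
        intro n hn
        by_cases h8 : (Nat.unpair n).1 = j
        · exact ⟨n, le_rfl, h8, rfl⟩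
        · obtain ⟨n', h9, h10, h11⟩ := ih (n + 1) (by rw [← hn]; congr 2; ring)
          exact ⟨n', by omega, h10, h11.trans (hstay n j (Ne.symm h8))⟩
    have hex : ∀ j n, ∃ n', n ≤ n' ∧ (Nat.unpair n').1 = j ∧ (P n').1.2.2 j = (P n).1.2.2 j := by
      intro j n
      have h8 : n ≤ Nat.pair j n := Nat.right_le_pair j n
      refine hnext j (Nat.pair j n - n) n ?_
      rw [Nat.add_sub_cancel' h8, Nat.unpair_pair]
    have hall : ∀ k j n, coeff k (r * (P n).1.2.2 j) = 0 := by
      intro k
      induction k with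
      | zero =>
        intro j n
        obtain ⟨n', -, h9, h10⟩ := hex j n
        have h11 := hstep n'
        rw [h9, h10] at h11
        rw [h11, coeff_zero_X_mul]
      | succ k ih =>
        intro j n
        obtain ⟨n', -, h9, h10⟩ := hex j n
        have h11 := hstep n'
        rw [h9, h10] at h11
        rw [h11, coeff_succ_X_mul]
        exact ih j (n' + 1)
    intro j
    ext k
    rw [map_zero]
    exact hall k j 0

/-- separation for countable families of power series -/
theorem sep_inj (hreg : Reg B) (hint : Interp B) (hinj : RightInj B) (f g : ℕ → B⟦X⟧)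
    (hfg : ∀ i j, f i * g j = 0) : ∃ S : B⟦X⟧, (∀ i, f i * S = 0) ∧ ∀ j, S * g j = g j := by
  obtain ⟨e, q, he, ho, hq0, hqe, ha, hb⟩ := normal_form hreg g
  choose s hs using fun k : ℕ => hinj e (fun n => coeff k (q n)) he ho
  set Y : B⟦X⟧ := PowerSeries.mk fun k => if k = 0 then 1 else s k with hY
  have hYe : ∀ n, Y * C (e n) = q n := by
    intro n
    ext k
    rw [coeff_mul_C, hY, coeff_mk]
    by_cases hk : k = 0
    · subst hk
      rw [if_pos rfl, one_mul, coeff_zero_eq_constantCoeff_apply, hq0]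
    · rw [if_neg hk, hs k n, ← coeff_mul_C, hqe]
  have hYu : IsUnit Y := by
    rw [isUnit_iff_constantCoeff, ← coeff_zero_eq_constantCoeff_apply, hY, coeff_mk, if_pos rfl]
    exact isUnit_one
  obtain ⟨V, hV1, hV2⟩ := isUnit_iff_exists.1 hYu
  obtain ⟨z, hz, hz1, hz2⟩ := hint (fun p => coeff (Nat.unpair p).2 (f (Nat.unpair p).1 * Y)) e (by
    intro p n
    show coeff _ (f _ * Y) * e n = 0
    rw [← coeff_mul_C, mul_assoc, hYe, ha _ (fun j => hfg _ j) n, map_zero])
  have hfz : ∀ i, f i * Y * C z = 0 := by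
    intro i
    ext k
    rw [coeff_mul_C, map_zero]
    have := hz1 (Nat.pair i k)
    simp only [Nat.unpair_pair] at this
    exact this
  refine ⟨Y * C z * V, fun i => ?_, fun j => ?_⟩
  · rw [← mul_assoc, ← mul_assoc, hfz, zero_mul]
  · have h1 : ∀ n, (1 - Y * C z * V) * q n = 0 := by
      intro n
      rw [sub_mul, one_mul, sub_eq_zero]
      symm
      calc Y * C z * V * q n = Y * C z * (V * Y) * C (e n) := by rw [← hYe n]; simp only [mul_assoc]
        _ = Y * C (z * e n) := by rw [hV2, mul_one, mul_assoc, ← map_mul]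
        _ = q n := by rw [hz2, hYe]
    have h2 := hb _ h1 j
    rw [sub_mul, one_mul, sub_eq_zero] at h2
    exact h2.symm

end core

/-- separation for countable families of power series -/
def SepSeq (B : Type u) [Ring B] : Prop :=
  ∀ f g : ℕ → B⟦X⟧, (∀ i j, f i * g j = 0) → ∃ S : B⟦X⟧, (∀ i, f i * S = 0) ∧ ∀ j, S * g j = g j

section mods

variable {A : Type u} [Ring A]

theorem flat_of_embed_sep (hsep : ∀ n, SepSeq (Matrix (Fin n) (Fin n) A)) {ι : Type u}
    {K : Type u} [AddCommGroup K] [Module A⟦X⟧ K] (φ : K →ₗ[A⟦X⟧] (ι →₀ A⟦X⟧)) (hφ : Function.Injective φ) : Flat A⟦X⟧ K := by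
  classical
  intro m n r y hr
  set supp : Finset ι := Finset.univ.biUnion fun j => (φ (y j)).support with hsupp
  set F : ℕ → (Matrix (Fin n) (Fin n) A)⟦X⟧ := fun i =>
    if h : i < m then ofMat (fun _ j => r ⟨i, h⟩ j) else 0 with hF
  set G : ℕ → (Matrix (Fin n) (Fin n) A)⟦X⟧ := fun i =>
    match supp.toList[i]? with
    | some s => ofMat (fun j _ => φ (y j) s)
    | none => 0 with hG
  have hrs : ∀ i s, ∑ j, r i j * φ (y j) s = 0 := by
    intro i s
    have := congrArg (fun z => φ z s) (hr i)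
    simp only [map_sum, map_smul, Finsupp.finset_sum_apply, Finsupp.smul_apply, smul_eq_mul,
      map_zero, Finsupp.zero_apply] at this
    exact this
  obtain ⟨S, hS1, hS2⟩ := hsep n F G (by
    intro i j
    by_cases hi : i < m
    · simp only [hF, hG, dif_pos hi]
      rcases supp.toList[j]? with _ | s
      · exact mul_zero _
      · apply toMat_inj
        intro a b
        rw [toMat_mul, toMat_ofMat, toMat_ofMat, toMat_zero]
        exact hrs ⟨i, hi⟩ s
    · simp only [hF, dif_neg hi, zero_mul])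
  refine ⟨n, fun j l => toMat S j l, y, fun j => ?_, fun i l => ?_⟩
  · apply hφ
    ext1 s
    rw [map_sum]
    simp only [map_smul, Finsupp.finset_sum_apply, Finsupp.smul_apply, smul_eq_mul]
    by_cases hs : s ∈ supp
    · obtain ⟨i, hi⟩ := List.mem_iff_getElem?.1 (Finset.mem_toList.2 hs)
      have h1 := hS2 i
      simp only [hG, hi] at h1
      have h2 := congrArg (fun z => toMat z j j) h1
      simp only [toMat_mul, toMat_ofMat] at h2
      exact h2.symm
    · have h0 : ∀ l, φ (y l) s = 0 := by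
        intro l
        by_contra hcon
        exact hs (Finset.mem_biUnion.2 ⟨l, Finset.mem_univ _, Finsupp.mem_support_iff.2 hcon⟩)
      simp only [h0, mul_zero, Finset.sum_const_zero]
  · have h1 := hS1 i
    simp only [hF, dif_pos i.2] at h1
    have h2 := congrArg (fun z => toMat z l l) h1
    simp only [toMat_mul, toMat_ofMat, toMat_zero] at h2
    exact h2

theorem dim_le_one_of_sep (hsep : ∀ n, SepSeq (Matrix (Fin n) (Fin n) A)) : wgldim A⟦X⟧ ≤ 1 := by
  classical
  rw [wgldim_le_one]
  intro M _ _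
  refine ⟨M →₀ A⟦X⟧, inferInstance, inferInstance, Finsupp.linearCombination A⟦X⟧ (id : M → M),
    fun x => ⟨Finsupp.single x 1, ?_⟩,
    flat_of_embed_sep hsep LinearMap.id Function.injective_id,
    flat_of_embed_sep hsep (LinearMap.ker _).subtype Subtype.val_injective⟩
  rw [Finsupp.linearCombination_single, one_smul]
  rfl

end mods

end Pool.Agent.H128W
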