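import Pool.Agent.H128W.Inj

set_option autoImplicit false

/-! # Countably injective rings: left version -/

namespace Pool.Agent.H128W

open PowerSeries

universe u

/-- the left-handed version of `RightInj` -/
def LeftInj (B : Type u) [Ring B] : Prop :=
  ∀ e c : ℕ → B, (∀ n, e n * e n = e n) → (∀ m n, m ≠ n → e m * e n = 0) →
    ∃ s : B, ∀ n, e n * s = e n * c n

section core

variable {B : Type u} [Ring B]

/-- coefficientwise passage to the opposite ring -/
noncomputable def opS (f : B⟦X⟧) : Bᵐᵒᵖ⟦X⟧ := PowerSeries.mk fun k => MulOpposite.op (coeff k f)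

noncomputable def unS (f : Bᵐᵒᵖ⟦X⟧) : B⟦X⟧ := PowerSeries.mk fun k => MulOpposite.unop (coeff k f)

lemma unS_mul (f g : Bᵐᵒᵖ⟦X⟧) : unS (f * g) = unS g * unS f := by
  ext k
  rw [unS, coeff_mk, coeff_mul, coeff_mul, Finset.unop_sum, ← Finset.Nat.sum_antidiagonal_swap]
  refine Finset.sum_congr rfl fun p _ => ?_
  rw [MulOpposite.unop_mul, unS, unS, coeff_mk, coeff_mk]
  rfl

lemma opS_mul (f g : B⟦X⟧) : opS (f * g) = opS g * opS f := by
  ext k
  rw [opS, coeff_mk, coeff_mul, coeff_mul, Finset.op_sum, ← Finset.Nat.sum_antidiagonal_swap]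
  refine Finset.sum_congr rfl fun p _ => ?_
  rw [MulOpposite.op_mul, opS, opS, coeff_mk, coeff_mk]
  rfl

lemma unS_opS (f : B⟦X⟧) : unS (opS f) = f := by
  ext k
  rw [unS, coeff_mk, opS, coeff_mk, MulOpposite.unop_op]

lemma unS_zero : unS (0 : Bᵐᵒᵖ⟦X⟧) = 0 := by
  ext k
  rw [unS, coeff_mk, map_zero, MulOpposite.unop_zero, map_zero]

lemma opS_zero : opS (0 : B⟦X⟧) = 0 := by
  ext k
  rw [opS, coeff_mk, map_zero, MulOpposite.op_zero, map_zero]

theorem sep_injL (hreg : Reg B) (hint : Interp B) (hinj : LeftInj B) (f g : ℕ → B⟦X⟧)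
    (hfg : ∀ i j, f i * g j = 0) : ∃ S : B⟦X⟧, (∀ i, f i * S = 0) ∧ ∀ j, S * g j = g j := by
  have r1 : Reg Bᵐᵒᵖ := by
    intro x
    obtain ⟨t, ht⟩ := hreg x.unop
    refine ⟨MulOpposite.op t, ?_⟩
    apply MulOpposite.unop_injective
    rw [MulOpposite.unop_mul, MulOpposite.unop_mul, MulOpposite.unop_op, ← mul_assoc, ht]
  have r2 : Interp Bᵐᵒᵖ := by
    intro a b hab
    obtain ⟨z, hz, hz1, hz2⟩ := hint (fun j => (b j).unop) (fun i => (a i).unop) (fun j i => by
      rw [← MulOpposite.unop_mul, hab, MulOpposite.unop_zero])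
    refine ⟨MulOpposite.op (1 - z), ?_, fun i => ?_, fun j => ?_⟩
    · rw [← MulOpposite.op_mul, sub_mul, one_mul, mul_sub, mul_one, hz, sub_self, sub_zero]
    · apply MulOpposite.unop_injective
      rw [MulOpposite.unop_mul, MulOpposite.unop_op, sub_mul, one_mul, hz2, sub_self,
        MulOpposite.unop_zero]
    · apply MulOpposite.unop_injective
      rw [MulOpposite.unop_mul, MulOpposite.unop_op, mul_sub, mul_one, hz1, sub_zero]
  have r3 : RightInj Bᵐᵒᵖ := by
    intro e c he ho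
    obtain ⟨s, hs⟩ := hinj (fun n => (e n).unop) (fun n => (c n).unop) (fun n => by
      rw [← MulOpposite.unop_mul, he]) (fun m n hmn => by
      rw [← MulOpposite.unop_mul, ho n m hmn.symm, MulOpposite.unop_zero])
    refine ⟨MulOpposite.op s, fun n => ?_⟩
    apply MulOpposite.unop_injective
    rw [MulOpposite.unop_mul, MulOpposite.unop_op, hs, MulOpposite.unop_mul]
  obtain ⟨S, h1, h2⟩ := sep_inj r1 r2 r3 (fun j => opS (g j)) (fun i => opS (f i)) (by
    intro j i
    rw [← opS_mul, hfg, opS_zero])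
  refine ⟨1 - unS S, fun i => ?_, fun j => ?_⟩
  · have := congrArg unS (h2 i)
    rw [unS_mul, unS_opS] at this
    rw [mul_sub, mul_one, this, sub_self]
  · have := congrArg unS (h1 j)
    rw [unS_mul, unS_opS, unS_zero] at this
    rw [sub_mul, one_mul, this, sub_zero]

end core

end Pool.Agent.H128W
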