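import Pool.Agent.H128W.Suf

set_option autoImplicit false

/-! # The separation property for matrices -/

namespace Pool.Agent.H128W

open PowerSeries

universe u

section general

variable {R : Type u} [Ring R]

lemma Flat.general {M : Type u} [AddCommGroup M] [Module R M] (h : Flat R M) {ι κ : Type}
    [Fintype ι] [Fintype κ] (r : ι → κ → R) (y : κ → M) (hr : ∀ i, ∑ j, r i j • y j = 0) :
    ∃ (k : ℕ) (b : κ → Fin k → R) (z : Fin k → M),
      (∀ j, y j = ∑ l, b j l • z l) ∧ ∀ i l, ∑ j, r i j * b j l = 0 := by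
  classical
  set e := Fintype.equivFin ι
  set e' := Fintype.equivFin κ
  obtain ⟨k, b, z, h1, h2⟩ := h (Fintype.card ι) (Fintype.card κ)
    (fun i j => r (e.symm i) (e'.symm j)) (fun j => y (e'.symm j)) (by
      intro i
      rw [← hr (e.symm i)]
      exact Equiv.sum_comp e'.symm (fun j => r (e.symm i) j • y j))
  refine ⟨k, fun j => b (e' j), z, fun j => ?_, fun i l => ?_⟩
  · have := h1 (e' j)
    rw [Equiv.symm_apply_apply] at this
    exact this
  · have h3 := h2 (e i) l
    rw [Equiv.symm_apply_apply] at h3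
    rw [← Equiv.sum_comp e'.symm (fun j => r i j * b (e' j) l)]
    simp only [Equiv.apply_symm_apply]
    exact h3

theorem sep_matrix (h : wgldim R ≤ 1) {ι : Type} [Fintype ι] [DecidableEq ι] (f g : Matrix ι ι R)
    (hfg : f * g = 0) : ∃ S : Matrix ι ι R, f * S = 0 ∧ S * g = g := by
  rw [wgldim_le_one] at h
  set L : Submodule R (ι → R) := Submodule.span R (Set.range g) with hL
  let eqv : (ι → R) ≃ₗ[R] (ι → R) := LinearEquiv.refl R _
  -- the module lives in the right universe
  obtain ⟨F, _, _, p, hp, hF, hK⟩ := h ((ι → R) ⧸ L) inferInstance inferInstance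
  choose φ hφ using fun c : ι => hp (L.mkQ (Pi.single c 1))
  have hdec : ∀ v : ι → R, v = ∑ c, v c • (Pi.single c 1 : ι → R) := by
    intro v
    ext c
    rw [Finset.sum_apply]
    simp only [Pi.smul_apply, Pi.single_apply, smul_eq_mul, mul_ite, mul_one, mul_zero,
      Finset.sum_ite_eq, Finset.mem_univ, if_true]
  have hpv : ∀ v : ι → R, p (∑ c, v c • φ c) = L.mkQ v := by
    intro v
    rw [map_sum]
    conv_rhs => rw [hdec v, map_sum]
    refine Finset.sum_congr rfl fun c _ => ?_
    rw [map_smul, hφ, map_smul]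
  have hg : ∀ i, p (∑ c, g i c • φ c) = 0 := by
    intro i
    rw [hpv]
    exact (Submodule.Quotient.mk_eq_zero L).2 (Submodule.subset_span ⟨i, rfl⟩)
  obtain ⟨k, c, κ, hκ, hc⟩ := Flat.general hK f (fun i => ⟨∑ c, g i c • φ c, hg i⟩) (by
    intro a
    apply Subtype.ext
    rw [Submodule.coe_sum]
    simp only [Submodule.coe_smul, Finset.smul_sum, smul_smul]
    rw [Finset.sum_comm]
    rw [Submodule.coe_zero]
    apply Finset.sum_eq_zero
    intro d _
    rw [← Finset.sum_smul]
    have := congrFun (congrFun hfg a) d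
    rw [Matrix.mul_apply] at this
    rw [this, Matrix.zero_apply, zero_smul])
  have hκ' : ∀ i, ∑ d, g i d • φ d = ∑ l, c i l • (κ l : F) := by
    intro i
    have := congrArg Subtype.val (hκ i)
    rw [Submodule.coe_sum] at this
    exact this
  obtain ⟨q, b, z, hz, hb⟩ := Flat.general hF (ι := ι) (κ := ι ⊕ Fin k)
    (fun i => Sum.elim (g i) (fun l => - c i l)) (Sum.elim φ (fun l => (κ l : F))) (by
    intro i
    rw [Fintype.sum_sum_type]
    simp only [Sum.elim_inl, Sum.elim_inr, neg_smul]
    rw [Finset.sum_neg_distrib, hκ' i, add_neg_cancel])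
  have hz0 : ∀ d, φ d = ∑ t, b (Sum.inl d) t • z t := fun d => hz (Sum.inl d)
  have hzs : ∀ l : Fin k, (κ l : F) = ∑ t, b (Sum.inr l) t • z t := fun l => hz (Sum.inr l)
  choose τ hτ using fun t => L.mkQ_surjective (p (z t))
  set C' : Matrix ι (Fin k) R := fun i l => c i l with hC'
  set B0 : Matrix ι (Fin q) R := fun d t => b (Sum.inl d) t with hB0
  set B1 : Matrix (Fin k) (Fin q) R := fun l t => b (Sum.inr l) t with hB1
  set T : Matrix (Fin q) ι R := fun t d => τ t d with hT
  have hfC : f * C' = 0 := by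
    ext a l
    rw [Matrix.mul_apply, Matrix.zero_apply]
    exact hc a l
  have hb' : g * B0 = C' * B1 := by
    ext i t
    have := hb i t
    rw [Fintype.sum_sum_type] at this
    simp only [Sum.elim_inl, Sum.elim_inr, neg_mul, Finset.sum_neg_distrib] at this
    rw [Matrix.mul_apply, Matrix.mul_apply]
    exact (sub_eq_zero.1 (by rw [sub_eq_add_neg]; exact this))
  have h0 : ∀ d, (fun j => (1 - B0 * T : Matrix ι ι R) d j) ∈ L := by
    intro d
    rw [← Submodule.Quotient.mk_eq_zero, ← Submodule.mkQ_apply]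
    have e1 : (fun j => (1 - B0 * T : Matrix ι ι R) d j) = Pi.single d 1 - ∑ t, b (Sum.inl d) t • τ t := by
      ext j
      rw [Matrix.sub_apply, Matrix.mul_apply, Matrix.one_apply, Pi.sub_apply, Finset.sum_apply,
        Pi.single_apply]
      simp only [Pi.smul_apply, smul_eq_mul, eq_comm]
      rfl
    rw [e1, map_sub, ← hφ, hz0, map_sum, map_sum, sub_eq_zero]
    refine Finset.sum_congr rfl fun t _ => ?_
    rw [map_smul, ← hτ, map_smul]
  have hs : ∀ l : Fin k, (fun j => (B1 * T : Matrix (Fin k) ι R) l j) ∈ L := by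
    intro l
    rw [← Submodule.Quotient.mk_eq_zero, ← Submodule.mkQ_apply]
    have e1 : (fun j => (B1 * T : Matrix (Fin k) ι R) l j) = ∑ t, b (Sum.inr l) t • τ t := by
      ext j
      rw [Matrix.mul_apply, Finset.sum_apply]
      rfl
    have h1 : p (κ l : F) = 0 := (κ l).2
    rw [hzs l, map_sum] at h1
    rw [e1, map_sum, ← h1]
    refine Finset.sum_congr rfl fun t _ => ?_
    rw [map_smul, map_smul, hτ]
  choose s0 hs0 using fun d => (Submodule.mem_span_range_iff_exists_fun R).1 (h0 d)
  choose s hs using fun l => (Submodule.mem_span_range_iff_exists_fun R).1 (hs l)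
  have hs0' : (Matrix.of s0) * g = 1 - B0 * T := by
    ext d j
    rw [Matrix.mul_apply]
    have := congrFun (hs0 d) j
    rw [Finset.sum_apply] at this
    exact this
  have hs' : (Matrix.of s) * g = B1 * T := by
    ext d j
    rw [Matrix.mul_apply]
    have := congrFun (hs d) j
    rw [Finset.sum_apply] at this
    exact this
  refine ⟨C' * Matrix.of s + g * Matrix.of s0, ?_, ?_⟩
  · rw [mul_add, ← Matrix.mul_assoc, hfC, Matrix.zero_mul, ← Matrix.mul_assoc, hfg,
      Matrix.zero_mul, add_zero]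
  · rw [add_mul, Matrix.mul_assoc, Matrix.mul_assoc, hs0', hs', mul_sub, mul_one,
      ← Matrix.mul_assoc, ← Matrix.mul_assoc, hb', add_sub_cancel]

end general

/-- relations of finite length split -/
def Sep (R : Type u) [Ring R] : Prop :=
  ∀ (m : ℕ) (f g : Fin m → R), ∑ i, f i * g i = 0 →
    ∃ S : Fin m → Fin m → R, (∀ j, ∑ i, f i * S i j = 0) ∧ ∀ i, g i = ∑ j, S i j * g j

section mat

variable {A : Type u} [Ring A] {n : ℕ}

lemma toMat_sum {t : Type} [Fintype t] (h : t → (Matrix (Fin n) (Fin n) A)⟦X⟧) (i j : Fin n) :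
    toMat (∑ p, h p) i j = ∑ p, toMat (h p) i j := by
  ext k
  rw [coeff_toMat, map_sum, map_sum, Matrix.sum_apply]
  simp only [coeff_toMat]

lemma toMat_inj {g h : (Matrix (Fin n) (Fin n) A)⟦X⟧} (H : ∀ i j, toMat g i j = toMat h i j) :
    g = h := by
  ext k i j
  rw [← coeff_toMat, H, coeff_toMat]

theorem sep_mat (h : wgldim A⟦X⟧ ≤ 1) : Sep (Matrix (Fin n) (Fin n) A)⟦X⟧ := by
  classical
  intro t f g hfg
  have hfg' : ∀ i j, ∑ q, ∑ l, toMat (f q) i l * toMat (g q) l j = 0 := by
    intro i j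
    have h1 : toMat (∑ q, f q * g q) i j = 0 := by rw [hfg, toMat_zero]
    rw [toMat_sum] at h1
    simp only [toMat_mul] at h1
    exact h1
  obtain ⟨S, hS1, hS2⟩ := sep_matrix h (ι := Fin t × Fin n)
    (fun a b => toMat (f b.1) a.2 b.2) (fun a b => toMat (g a.1) a.2 b.2) (by
      ext1 a b
      rw [Matrix.mul_apply, Fintype.sum_prod_type, Matrix.zero_apply]
      exact hfg' a.2 b.2)
  refine ⟨fun p q => ofMat (fun i j => S (p, i) (q, j)), fun q => ?_, fun p => ?_⟩
  · apply toMat_inj
    intro i j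
    rw [toMat_sum, toMat_zero]
    simp only [toMat_mul, toMat_ofMat]
    have := congrFun (congrFun hS1 (q, i)) (q, j)
    rw [Matrix.mul_apply, Fintype.sum_prod_type] at this
    exact this
  · apply toMat_inj
    intro i j
    rw [toMat_sum]
    simp only [toMat_mul, toMat_ofMat]
    have := congrFun (congrFun hS2 (p, i)) (p, j)
    rw [Matrix.mul_apply, Fintype.sum_prod_type] at this
    exact this.symm

end mat

section reg

variable {A : Type u} [Ring A]

theorem regular_of_sep (h : Sep A⟦X⟧) (a : A) : ∃ t : A, a * t * a = a := by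
  obtain ⟨S, h1, h2⟩ := h 2 ![(X : A⟦X⟧), - C a] ![C a, X] (by
    rw [Fin.sum_univ_two]
    simp only [Matrix.cons_val_zero, Matrix.cons_val_one]
    rw [X_mul, neg_mul, add_neg_cancel])
  have e1 := h1 0
  have e2 := h2 0
  rw [Fin.sum_univ_two] at e1 e2
  simp only [Matrix.cons_val_zero, Matrix.cons_val_one] at e1 e2
  have f1 := congrArg (coeff 1) e1
  have f2 := congrArg (coeff 0) e2
  have f0 := coeff_succ_X_mul 0 (S 0 0)
  rw [zero_add] at f0
  rw [map_add, neg_mul, map_neg, coeff_C_mul, map_zero, f0] at f1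
  rw [map_add, coeff_mul_C, coeff_zero_mul_X, add_zero, coeff_zero_C] at f2
  refine ⟨coeff 1 (S 1 0), ?_⟩
  have f3 : a * coeff 1 (S 1 0) = coeff 0 (S 0 0) := by
    rw [← sub_eq_zero, ← neg_sub, sub_eq_add_neg, f1, neg_zero]
  rw [f3, ← f2]

theorem separation_of_sep (h : Sep A⟦X⟧) (e e' : ℕ → A) (he : ∀ n, e n * e n = e n)
    (ho : ∀ m n, m ≠ n → e m * e n = 0) (he' : ∀ n, e' n * e' n = e' n)
    (ho' : ∀ m n, m ≠ n → e' m * e' n = 0) (hee : ∀ m n, e m * e' n = 0) :
    ∃ s : A, (∀ n, e n * s = 0) ∧ ∀ n, s * e' n = e' n := by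
  classical
  set F : A⟦X⟧ := PowerSeries.mk e with hF
  set G : A⟦X⟧ := PowerSeries.mk e' with hG
  have hFG : F * G = 0 := by
    ext n
    rw [coeff_mul, map_zero]
    apply Finset.sum_eq_zero
    rintro ⟨i, j⟩ _
    simp only [hF, hG, coeff_mk]
    exact hee i j
  obtain ⟨S, h1, h2⟩ := h 1 (fun _ => F) (fun _ => G) (by
    rw [Fin.sum_univ_one]
    exact hFG)
  have e1 : F * S 0 0 = 0 := by simpa using h1 0
  have e2 : G = S 0 0 * G := by simpa using h2 0
  refine ⟨coeff 0 (S 0 0), fun n => ?_, fun n => ?_⟩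
  · have := congrArg (coeff n) e1
    rw [coeff_mul, map_zero] at this
    have h3 := congrArg (fun z => e n * z) this
    simp only [Finset.mul_sum, mul_zero] at h3
    rw [Finset.sum_eq_single (n, 0)] at h3
    · simp only [hF, coeff_mk] at h3
      rw [← mul_assoc, he] at h3
      exact h3
    · rintro ⟨i, j⟩ hij hne
      simp only [hF, coeff_mk]
      have : n ≠ i := by
        rintro rfl
        apply hne
        have := Finset.HasAntidiagonal.mem_antidiagonal.1 hij
        simp only at this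
        simp only [Prod.mk.injEq, true_and]
        omega
      rw [← mul_assoc, ho n i this, zero_mul]
    · intro hcon
      exact absurd (Finset.HasAntidiagonal.mem_antidiagonal.2 (by simp)) hcon
  · have := congrArg (coeff n) e2
    rw [coeff_mul] at this
    have h3 := congrArg (fun z => z * e' n) this
    simp only [Finset.sum_mul] at h3
    rw [Finset.sum_eq_single (0, n)] at h3
    · simp only [hG, coeff_mk] at h3
      rw [mul_assoc, he'] at h3
      exact h3.symm
    · rintro ⟨i, j⟩ hij hne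
      simp only [hG, coeff_mk]
      have : j ≠ n := by
        rintro rfl
        apply hne
        have := Finset.HasAntidiagonal.mem_antidiagonal.1 hij
        simp only at this
        simp only [Prod.mk.injEq, and_true]
        omega
      rw [mul_assoc, ho' j n this, mul_zero]
    · intro hcon
      exact absurd (Finset.HasAntidiagonal.mem_antidiagonal.2 (by simp)) hcon

/-- orthogonalisation of a sequence in a regular ring -/
theorem ortho (hreg : ∀ a : A, ∃ t : A, a * t * a = a) (a : ℕ → A) :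
    ∃ e : ℕ → A, (∀ n, e n * e n = e n) ∧ (∀ m n, m ≠ n → e m * e n = 0) ∧
      (∀ n, a n = a n * ∑ j ∈ Finset.range (n + 1), e j) ∧
      ∀ b, (∀ i, a i * b = 0) → ∀ j, e j * b = 0 := by
  classical
  have step : ∀ (E : {e : A // e * e = e}) (n : ℕ), ∃ f : A, f * f = f ∧
      f * E.1 = 0 ∧ E.1 * f = 0 ∧ a n * (E.1 + f) = a n ∧ ∀ b, E.1 * b = 0 → a n * b = 0 → f * b = 0 := by
    rintro ⟨e, he⟩ n
    obtain ⟨t, ht⟩ := hreg (a n - a n * e)
    set c := a n - a n * e with hc
    have hce : c * e = 0 := by rw [hc, sub_mul, mul_assoc, he, sub_self]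
    have hf0 : (t * c) * (t * c) = t * c := by
      rw [mul_assoc, ← mul_assoc c t c, ht]
    have hf0e : (t * c) * e = 0 := by rw [mul_assoc, hce, mul_zero]
    refine ⟨(1 - e) * (t * c), ?_, ?_, ?_, ?_, ?_⟩
    · rw [mul_assoc, ← mul_assoc (t * c) (1 - e) (t * c), mul_sub, mul_one, hf0e, sub_zero, hf0]
    · show (1 - e) * (t * c) * e = 0
      rw [mul_assoc, hf0e, mul_zero]
    · show e * ((1 - e) * (t * c)) = 0
      rw [← mul_assoc, mul_sub, mul_one, he, sub_self, zero_mul]
    · show a n * (e + (1 - e) * (t * c)) = a n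
      rw [mul_add, ← mul_assoc (a n) (1 - e), mul_sub, mul_one, ← hc, ← mul_assoc, ht, hc,
        add_sub_cancel]
    · intro b hb1 hb2
      have hb1' : e * b = 0 := hb1
      have : c * b = 0 := by rw [hc, sub_mul, hb2, mul_assoc, hb1', mul_zero, sub_zero]
      rw [mul_assoc, mul_assoc, this, mul_zero, mul_zero]
  choose φ h1 h4 h5 h6 h7 using step
  let nxt : {e : A // e * e = e} × ℕ → {e : A // e * e = e} × ℕ := fun p =>
    (⟨p.1.1 + φ p.1 p.2, by
      rw [add_mul, mul_add, mul_add, p.1.2, h1, h4, h5, add_zero, zero_add]⟩, p.2 + 1)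
  let P : ℕ → {e : A // e * e = e} × ℕ := fun n => nxt^[n] (⟨0, by simp⟩, 0)
  have hP : ∀ n, P (n + 1) = nxt (P n) := by
    intro n
    simp only [P, Function.iterate_succ_apply']
  have hP2 : ∀ n, (P n).2 = n := by
    intro n
    induction n with
    | zero => rfl
    | succ n ih => rw [hP]; show (P n).2 + 1 = n + 1; rw [ih]
  let Es : ℕ → {e : A // e * e = e} := fun n => (P n).1
  let f : ℕ → A := fun n => φ (Es n) n
  have hEs : ∀ n, (Es (n + 1)).1 = (Es n).1 + f n := by
    intro n
    show (P (n + 1)).1.1 = _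
    rw [hP]
    show (P n).1.1 + φ (P n).1 (P n).2 = _
    rw [hP2]
  have hEsum : ∀ n, (Es n).1 = ∑ j ∈ Finset.range n, f j := by
    intro n
    induction n with
    | zero => rfl
    | succ n ih => rw [hEs, Finset.sum_range_succ, ih]
  have habs : ∀ n k, (Es (n + 1 + k)).1 * f n = f n ∧ f n * (Es (n + 1 + k)).1 = f n := by
    intro n k
    induction k with
    | zero =>
      rw [add_zero, hEs, add_mul, mul_add, h4, h5, h1]
      exact ⟨zero_add _, zero_add _⟩
    | succ k ih =>
      have e : n + 1 + (k + 1) = (n + 1 + k) + 1 := by ring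
      rw [e, hEs]
      have z1 : f (n + 1 + k) * f n = 0 := by
        rw [← ih.1, ← mul_assoc, h4, zero_mul]
      have z2 : f n * f (n + 1 + k) = 0 := by
        rw [← ih.2, mul_assoc, h5, mul_zero]
      rw [add_mul, mul_add, z1, z2, ih.1, ih.2]
      exact ⟨add_zero _, add_zero _⟩
  have key : ∀ n k, f n * f (n + 1 + k) = 0 ∧ f (n + 1 + k) * f n = 0 := by
    intro n k
    have ih := habs n k
    constructor
    · rw [← ih.2, mul_assoc, h5, mul_zero]
    · rw [← ih.1, ← mul_assoc, h4, zero_mul]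
  refine ⟨f, fun n => h1 _ _, fun m n hmn => ?_, fun n => ?_, fun b hb => ?_⟩
  · rcases lt_or_gt_of_ne hmn with h | h
    · obtain ⟨k, rfl⟩ := Nat.exists_eq_add_of_le (Nat.succ_le_of_lt h)
      exact (key m k).1
    · obtain ⟨k, rfl⟩ := Nat.exists_eq_add_of_le (Nat.succ_le_of_lt h)
      exact (key n k).2
  · rw [← hEsum, hEs]
    exact (h6 (Es n) n).symm
  · have hE : ∀ n, (Es n).1 * b = 0 := by
      intro n
      induction n with
      | zero => exact zero_mul b
      | succ n ih => rw [hEs, add_mul, ih, h7 (Es n) n b ih (hb n), add_zero]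
    exact fun j => h7 (Es j) j b (hE j) (hb j)

theorem interpolation_of_sep (h : Sep A⟦X⟧) (a b : ℕ → A) (hab : ∀ i j, a i * b j = 0) :
    ∃ z : A, z * z = z ∧ (∀ i, a i * z = 0) ∧ ∀ j, z * b j = b j := by
  have hreg := regular_of_sep h
  obtain ⟨e, he1, he2, he3, he4⟩ := ortho hreg a
  obtain ⟨e', he1', he2', he3', he4'⟩ := ortho (A := Aᵐᵒᵖ) (by
    intro x
    obtain ⟨t, ht⟩ := hreg x.unop
    refine ⟨MulOpposite.op t, ?_⟩
    apply MulOpposite.unop_injective
    rw [MulOpposite.unop_mul, MulOpposite.unop_mul, MulOpposite.unop_op, ← mul_assoc, ht])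
    (fun n => MulOpposite.op (b n))
  have hee : ∀ m n, e m * (e' n).unop = 0 := by
    intro m n
    have h1 : ∀ i, a i * (e' n).unop = 0 := by
      intro i
      have h2 := he4' (MulOpposite.op (a i)) (fun j => by
        rw [← MulOpposite.op_mul, hab, MulOpposite.op_zero]) n
      have h3 := congrArg MulOpposite.unop h2
      rw [MulOpposite.unop_mul, MulOpposite.unop_op, MulOpposite.unop_zero] at h3
      exact h3
    exact he4 _ h1 m
  obtain ⟨s, hs1, hs2⟩ := separation_of_sep h e (fun n => (e' n).unop) he1 he2 (fun n => by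
    rw [← MulOpposite.unop_mul, he1']) (fun m n hmn => by
    rw [← MulOpposite.unop_mul, he2' n m hmn.symm, MulOpposite.unop_zero]) hee
  have ha : ∀ i, a i * s = 0 := by
    intro i
    rw [he3 i, mul_assoc, Finset.sum_mul, Finset.sum_eq_zero (fun j _ => hs1 j), mul_zero]
  have hb : ∀ j, s * b j = b j := by
    intro j
    have h1 := congrArg MulOpposite.unop (he3' j)
    rw [MulOpposite.unop_mul, MulOpposite.unop_op, Finset.unop_sum] at h1
    rw [h1, ← mul_assoc, Finset.mul_sum]
    simp only [hs2]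
  obtain ⟨t, ht⟩ := hreg (1 - s)
  set v := 1 - s with hv
  have hvz : v * (1 - t * v) = 0 := by
    rw [mul_sub, mul_one, ← mul_assoc, ht, sub_self]
  have hsz : s * (1 - t * v) = 1 - t * v := by
    have : s = 1 - v := by rw [hv, sub_sub_cancel]
    rw [this, sub_mul, one_mul, hvz, sub_zero]
  refine ⟨1 - t * v, ?_, fun i => ?_, fun j => ?_⟩
  · rw [sub_mul, one_mul, mul_assoc, hvz, mul_zero, sub_zero]
  · rw [← hsz, ← mul_assoc, ha, zero_mul]
  · have : v * b j = 0 := by rw [hv, sub_mul, one_mul, hb, sub_self]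
    rw [sub_mul, one_mul, mul_assoc, this, mul_zero, sub_zero]

end reg

end Pool.Agent.H128W
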