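import Pool.Agent.H128W.Flat

set_option autoImplicit false

/-! # Semisimple rings: the power series ring has weak global dimension one -/

namespace Pool.Agent.H128W

open PowerSeries

universe u

/-- a left ideal of the power series ring over a semisimple ring that is closed under division by `X`
has a right identity -/
theorem exists_proj {B : Type u} [Ring B] [IsSemisimpleRing B] (J : Ideal B⟦X⟧)
    (hJ : ∀ h : B⟦X⟧, X * h ∈ J → h ∈ J) : ∃ T ∈ J, ∀ h ∈ J, h * T = h := by
  let J0 : Ideal B :=
    { carrier := {b | ∃ h ∈ J, constantCoeff h = b}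
      add_mem' := by
        rintro a b ⟨h, hh, rfl⟩ ⟨g, hg, rfl⟩
        exact ⟨h + g, J.add_mem hh hg, map_add _ _ _⟩
      zero_mem' := ⟨0, J.zero_mem, map_zero _⟩
      smul_mem' := by
        rintro c b ⟨h, hh, rfl⟩
        exact ⟨C c * h, J.mul_mem_left _ hh, by rw [map_mul, constantCoeff_C, smul_eq_mul]⟩ }
  obtain ⟨e, he, hspan⟩ := IsSemisimpleRing.ideal_eq_span_idempotent J0
  have he' : e * e = e := he
  have heJ : e ∈ J0 := by
    rw [hspan]
    exact Ideal.subset_span rfl
  obtain ⟨h, hhJ, hhe⟩ := heJ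
  set E : B⟦X⟧ := C e with hE
  have hEE : E * E = E := by rw [hE, ← map_mul, he']
  set v : B⟦X⟧ := E * h * E + (1 - E) with hv
  have hvu : IsUnit v := by
    rw [isUnit_iff_constantCoeff, hv, map_add, map_mul, map_mul, map_sub, map_one, hhe, hE,
      constantCoeff_C, he', he', add_sub_cancel]
    exact isUnit_one
  obtain ⟨w, hw1, hw2⟩ := isUnit_iff_exists.1 hvu
  have hEv : E * v = E * h * E := by
    rw [hv, mul_add, mul_sub, mul_one, hEE, sub_self, add_zero, ← mul_assoc, ← mul_assoc, hEE]
  have hvE : v * E = E * h * E := by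
    rw [hv, add_mul, sub_mul, one_mul, hEE, sub_self, add_zero, mul_assoc, hEE]
  have hwE : w * E = E * w := by
    calc w * E = w * (E * (v * w)) := by rw [hw1, mul_one]
      _ = w * (E * v) * w := by simp only [mul_assoc]
      _ = w * (v * E) * w := by rw [hEv, hvE]
      _ = (w * v) * E * w := by simp only [mul_assoc]
      _ = E * w := by rw [hw2, one_mul]
  set T : B⟦X⟧ := w * (E * h) with hT
  have hTE : T * E = E := by
    rw [hT, mul_assoc, ← hvE, ← mul_assoc, hw2, one_mul]
  have hET : E * T = T := by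
    rw [hT, ← mul_assoc, ← hwE, mul_assoc, ← mul_assoc E E h, hEE]
  have hTT : T * T = T := by
    nth_rewrite 2 [← hET]
    rw [← mul_assoc, hTE, hET]
  have hTJ : T ∈ J := J.mul_mem_left _ (J.mul_mem_left _ hhJ)
  have key : ∀ k, ∀ d ∈ J, d * T = 0 → coeff k d = 0 := by
    intro k
    have h0 : ∀ d ∈ J, d * T = 0 → constantCoeff d = 0 := by
      intro d hd hdT
      have h1 : constantCoeff d ∈ J0 := ⟨d, hd, rfl⟩
      rw [hspan, Ideal.mem_span_singleton'] at h1
      obtain ⟨c, hc⟩ := h1
      have h2 : d * E = 0 := by rw [← hTE, ← mul_assoc, hdT, zero_mul]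
      have h3 := congrArg constantCoeff h2
      rw [map_mul, hE, constantCoeff_C, map_zero, ← hc, mul_assoc, he'] at h3
      rw [← hc, h3]
    induction k with
    | zero =>
      intro d hd hdT
      rw [coeff_zero_eq_constantCoeff_apply]
      exact h0 d hd hdT
    | succ k ih =>
      intro d hd hdT
      have h1 := eq_X_mul_shift_add_const d
      rw [h0 d hd hdT, map_zero, add_zero] at h1
      set d' : B⟦X⟧ := PowerSeries.mk fun p => coeff (p + 1) d with hd'
      have h2 : d' ∈ J := hJ _ (h1 ▸ hd)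
      have h3 : d' * T = 0 := by
        ext q
        rw [map_zero, ← coeff_succ_X_mul, ← mul_assoc, ← h1, hdT, map_zero]
      have h4 := ih d' h2 h3
      rw [hd', coeff_mk] at h4
      exact h4
  refine ⟨T, hTJ, fun g hg => ?_⟩
  have h1 : g - g * T ∈ J := J.sub_mem hg (J.mul_mem_left _ hTJ)
  have h2 : (g - g * T) * T = 0 := by rw [sub_mul, mul_assoc, hTT, sub_self]
  have h3 : g - g * T = 0 := by
    ext k
    rw [key k _ h1 h2, map_zero]
  exact (sub_eq_zero.1 h3).symm

section mat

variable {A : Type u} [Ring A] {n : ℕ}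

/-- a power series of matrices as a matrix of power series -/
noncomputable def toMat (h : (Matrix (Fin n) (Fin n) A)⟦X⟧) : Matrix (Fin n) (Fin n) A⟦X⟧ :=
  fun i j => PowerSeries.mk fun k => (coeff k h : Matrix (Fin n) (Fin n) A) i j

/-- a matrix of power series as a power series of matrices -/
noncomputable def ofMat (H : Matrix (Fin n) (Fin n) A⟦X⟧) : (Matrix (Fin n) (Fin n) A)⟦X⟧ :=
  PowerSeries.mk fun k => (fun i j => coeff k (H i j) : Matrix (Fin n) (Fin n) A)

lemma coeff_toMat (h : (Matrix (Fin n) (Fin n) A)⟦X⟧) (i j : Fin n) (k : ℕ) :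
    coeff k (toMat h i j) = (coeff k h : Matrix (Fin n) (Fin n) A) i j := by
  rw [toMat, coeff_mk]

lemma toMat_ofMat (H : Matrix (Fin n) (Fin n) A⟦X⟧) : toMat (ofMat H) = H := by
  ext i j k
  rw [coeff_toMat, ofMat, coeff_mk]

lemma toMat_mul (g h : (Matrix (Fin n) (Fin n) A)⟦X⟧) (i j : Fin n) :
    toMat (g * h) i j = ∑ l, toMat g i l * toMat h l j := by
  ext k
  rw [coeff_toMat, coeff_mul, Matrix.sum_apply, map_sum]
  simp only [Matrix.mul_apply, coeff_mul, coeff_toMat]
  rw [Finset.sum_comm]

lemma toMat_add (g h : (Matrix (Fin n) (Fin n) A)⟦X⟧) (i j : Fin n) :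
    toMat (g + h) i j = toMat g i j + toMat h i j := by
  ext k
  rw [coeff_toMat, map_add, map_add, coeff_toMat, coeff_toMat, Matrix.add_apply]

lemma toMat_zero (i j : Fin n) : toMat (0 : (Matrix (Fin n) (Fin n) A)⟦X⟧) i j = 0 := by
  ext k
  rw [coeff_toMat, map_zero, map_zero, Matrix.zero_apply]

lemma toMat_X_mul (h : (Matrix (Fin n) (Fin n) A)⟦X⟧) (i j : Fin n) :
    toMat (X * h) i j = X * toMat h i j := by
  ext k
  rw [coeff_toMat]
  rcases k with _ | k
  · rw [coeff_zero_X_mul, coeff_zero_X_mul, Matrix.zero_apply]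
  · rw [coeff_succ_X_mul, coeff_succ_X_mul, coeff_toMat]

lemma X_cancel {f : A⟦X⟧} (h : X * f = 0) : f = 0 := by
  ext k
  rw [← coeff_succ_X_mul, h, map_zero, map_zero]

/-- modules that embed in a free module over the power series ring of a semisimple ring are flat -/
theorem flat_of_embed [IsSemisimpleRing A] {ι : Type u} {K : Type u} [AddCommGroup K]
    [Module A⟦X⟧ K] (φ : K →ₗ[A⟦X⟧] (ι →₀ A⟦X⟧)) (hφ : Function.Injective φ) : Flat A⟦X⟧ K := by
  classical
  intro m n r y hr
  let J : Ideal (Matrix (Fin n) (Fin n) A)⟦X⟧ :=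
    { carrier := {h | ∀ s i, ∑ j, toMat h i j * φ (y j) s = 0}
      add_mem' := by
        intro g h hg hh s i
        simp only [toMat_add, add_mul, Finset.sum_add_distrib]
        rw [hg s i, hh s i, add_zero]
      zero_mem' := by
        intro s i
        simp only [toMat_zero, zero_mul, Finset.sum_const_zero]
      smul_mem' := by
        intro g h hh s i
        simp only [smul_eq_mul, toMat_mul, Finset.sum_mul]
        rw [Finset.sum_comm]
        apply Finset.sum_eq_zero
        intro l _
        simp only [mul_assoc]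
        rw [← Finset.mul_sum, hh s l, mul_zero] }
  have hJ : ∀ h : (Matrix (Fin n) (Fin n) A)⟦X⟧, X * h ∈ J → h ∈ J := by
    intro h hh s i
    have := hh s i
    simp only [toMat_X_mul, mul_assoc] at this
    rw [← Finset.mul_sum] at this
    exact X_cancel this
  obtain ⟨T, hTJ, hT⟩ := exists_proj J hJ
  refine ⟨n, fun j l => (if j = l then 1 else 0) - toMat T j l, y, fun j => ?_, fun i l => ?_⟩
  · apply hφ
    ext1 s
    rw [map_sum]
    simp only [map_smul, Finsupp.finset_sum_apply, Finsupp.smul_apply, smul_eq_mul, sub_mul,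
      Finset.sum_sub_distrib, ite_mul, one_mul, zero_mul, Finset.sum_ite_eq, Finset.mem_univ,
      if_true]
    rw [hTJ s j, sub_zero]
  · simp only [mul_sub, Finset.sum_sub_distrib, mul_ite, mul_one, mul_zero, Finset.sum_ite_eq',
      Finset.mem_univ, if_true]
    have h1 : ofMat (fun _ j => r i j : Matrix (Fin n) (Fin n) A⟦X⟧) ∈ J := by
      intro s i'
      rw [toMat_ofMat]
      have := congrArg (fun z => φ z s) (hr i)
      simp only [map_sum, map_smul, Finsupp.finset_sum_apply, Finsupp.smul_apply, smul_eq_mul,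
        map_zero, Finsupp.zero_apply] at this
      exact this
    have h2 := congrArg (fun z => toMat z l l) (hT _ h1)
    simp only [toMat_mul, toMat_ofMat] at h2
    rw [h2, sub_self]

theorem dim_le_one_of_semisimple [IsSemisimpleRing A] : wgldim A⟦X⟧ ≤ 1 := by
  classical
  rw [wgldim_le_one]
  intro M _ _
  refine ⟨M →₀ A⟦X⟧, inferInstance, inferInstance, Finsupp.linearCombination A⟦X⟧ (id : M → M),
    fun x => ⟨Finsupp.single x 1, ?_⟩, flat_of_embed LinearMap.id Function.injective_id,
    flat_of_embed (LinearMap.ker _).subtype Subtype.val_injective⟩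
  rw [Finsupp.linearCombination_single, one_smul]
  rfl

theorem not_dim_zero [Nontrivial A] : ¬ wgldim A⟦X⟧ ≤ 0 := by
  rw [wgldim_le_zero]
  intro h
  set L : Submodule A⟦X⟧ A⟦X⟧ := Submodule.span A⟦X⟧ {X} with hL
  obtain ⟨k, b, z, h1, h2⟩ := h (A⟦X⟧ ⧸ L) inferInstance inferInstance 1 1 (fun _ _ => X)
    (fun _ => L.mkQ 1) (by
      intro _
      rw [Fin.sum_univ_one, ← map_smul, smul_eq_mul, mul_one]
      exact (Submodule.Quotient.mk_eq_zero L).2 (Submodule.subset_span rfl))
  have hb : ∀ l, b 0 l = 0 := by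
    intro l
    have := h2 0 l
    rw [Fin.sum_univ_one] at this
    exact X_cancel this
  have h3 := h1 0
  simp only [hb, zero_smul, Finset.sum_const_zero] at h3
  have h4 : (1 : A⟦X⟧) ∈ L := (Submodule.Quotient.mk_eq_zero L).1 h3
  obtain ⟨c, hc⟩ := Submodule.mem_span_singleton.1 h4
  have h5 := congrArg (coeff 0) hc
  rw [smul_eq_mul, coeff_zero_mul_X, coeff_zero_one] at h5
  exact zero_ne_one h5

theorem dim_zero_of_subsingleton [Subsingleton A] : wgldim A⟦X⟧ ≤ 0 := by
  rw [wgldim_le_zero]
  intro M _ _ m n r y _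
  have : Subsingleton A⟦X⟧ := ⟨fun f g => by ext k; exact Subsingleton.elim _ _⟩
  have : Subsingleton M := Module.subsingleton A⟦X⟧ M
  exact ⟨0, fun _ _ => 0, fun _ => 0, fun j => Subsingleton.elim _ _, fun _ l => l.elim0⟩

end mat

end Pool.Agent.H128W
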