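import Pool.Agent.H128W.Nec

set_option autoImplicit false

/-! # Countable unions of noetherian subrings -/

namespace Pool.Agent.H128W

open PowerSeries Topology Filter

universe u v

lemma nowhere (W : Set ℕ) (hW : W.Infinite) (b : Bool) (N : ℕ) :
    IsNowhereDense {x : ℕ → Bool | ∀ n, n ∈ W → N ≤ n → x n = !b} := by
  have hcl : IsClosed {x : ℕ → Bool | ∀ n, n ∈ W → N ≤ n → x n = !b} := by
    simp only [Set.ofPred_forall]
    exact isClosed_iInter fun n => isClosed_iInter fun _ => isClosed_iInter fun _ =>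
      isClosed_eq (continuous_apply n) continuous_const
  rw [IsNowhereDense, hcl.closure_eq, Set.eq_empty_iff_forall_notMem]
  intro x hx
  obtain ⟨V, hVs, hVo, hxV⟩ := mem_interior.1 hx
  have ht : Tendsto (fun n => Function.update x n b) atTop (𝓝 x) := by
    rw [tendsto_pi_nhds]
    intro i
    apply tendsto_const_nhds.congr'
    filter_upwards [eventually_gt_atTop i] with n hn
    rw [Function.update_of_ne (by omega)]
  have he := ht.eventually (hVo.mem_nhds hxV)
  obtain ⟨M, hM⟩ := eventually_atTop.1 he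
  obtain ⟨n, hnW, hn⟩ := hW.exists_gt (max M N)
  have h1 := hVs (hM n (le_trans (le_max_left _ _) hn.le))
  have h2 := h1 n hnW (le_trans (le_max_right _ _) hn.le)
  rw [Function.update_self] at h2
  cases b <;> simp at h2

lemma meagre (W : Set ℕ) (hW : W.Infinite) (b : Bool) :
    IsMeagre {x : ℕ → Bool | {n | n ∈ W ∧ x n = b}.Finite} := by
  refine IsMeagre.mono (t := {x : ℕ → Bool | {n | n ∈ W ∧ x n = b}.Finite}) ?_
    (isMeagre_iUnion fun N => (nowhere W hW b N).isMeagre)
  intro x hx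
  obtain ⟨N, hN⟩ := (show {n | n ∈ W ∧ x n = b}.Finite from hx).bddAbove
  refine Set.mem_iUnion.2 ⟨N + 1, fun n hn hNn => ?_⟩
  by_contra hcon
  have h1 : x n = b := by
    cases hx' : x n <;> cases b <;> simp_all
  have := hN (show n ∈ {n | n ∈ W ∧ x n = b} from ⟨hn, h1⟩)
  omega

lemma triangular (G : ℕ → Set (ℕ → Bool)) (hG : ∀ x, ∃ k, x ∈ G k) :
    ∃ k, ∀ b : Bool, ∃ (y : ℕ → ℕ → Bool) (n : ℕ → ℕ), (∀ j, y j ∈ G k) ∧
      (∀ j, y j (n j) = b) ∧ ∀ i j, i < j → y i (n j) = !b := by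
  obtain ⟨k, hk⟩ : ∃ k, ¬ IsMeagre (G k) := by
    by_contra hcon
    push Not at hcon
    have h1 : IsMeagre (Set.univ : Set (ℕ → Bool)) :=
      (isMeagre_iUnion hcon).mono (fun x _ => Set.mem_iUnion.2 (hG x))
    exact not_isMeagre_of_isOpen isOpen_univ Set.univ_nonempty h1
  refine ⟨k, fun b => ?_⟩
  have step : ∀ W : {W : Set ℕ // W.Infinite}, ∃ (m : ℕ) (x : ℕ → Bool), m ∈ W.1 ∧ x ∈ G k ∧
      x m = b ∧ {n | n ∈ W.1 ∧ x n = !b}.Infinite := by
    rintro ⟨W, hW⟩
    by_contra hcon
    push Not at hcon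
    apply hk
    refine IsMeagre.mono ?_ ((meagre W hW b).union (meagre W hW (!b)))
    intro x hx
    by_cases h1 : ∃ m ∈ W, x m = b
    · obtain ⟨m, hm, hxm⟩ := h1
      right
      exact (hcon m x hm hx hxm)
    · left
      push Not at h1
      have : {n | n ∈ W ∧ x n = b} = ∅ := by
        rw [Set.eq_empty_iff_forall_notMem]
        rintro n ⟨hn1, hn2⟩
        exact h1 n hn1 hn2
      show {n | n ∈ W ∧ x n = b}.Finite
      rw [this]
      exact Set.finite_empty
  choose mm xx h1 h2 h3 h4 using step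
  let nxt : {W : Set ℕ // W.Infinite} → {W : Set ℕ // W.Infinite} := fun W =>
    ⟨{n | n ∈ W.1 ∧ xx W n = !b}, h4 W⟩
  let Ws : ℕ → {W : Set ℕ // W.Infinite} := fun j => nxt^[j] ⟨Set.univ, Set.infinite_univ⟩
  have hWs : ∀ j, Ws (j + 1) = nxt (Ws j) := fun j => by
    simp only [Ws, Function.iterate_succ_apply']
  have hsub : ∀ j d, (Ws (j + d)).1 ⊆ (Ws j).1 := by
    intro j d
    induction d with
    | zero => exact subset_rfl
    | succ d ih =>
      rw [← add_assoc, hWs]
      exact fun n hn => ih hn.1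
  refine ⟨fun j => xx (Ws j), fun j => mm (Ws j), fun j => h2 _, fun j => h3 _, fun i j hij => ?_⟩
  obtain ⟨d, rfl⟩ := Nat.exists_eq_add_of_le (Nat.succ_le_of_lt hij)
  have h5 : mm (Ws (i.succ + d)) ∈ (Ws (i + 1)).1 := hsub (i + 1) d (h1 _)
  rw [hWs] at h5
  exact h5.2

theorem semisimple_of_union {A : Type u} [Ring A] (h : wgldim A⟦X⟧ ≤ 1) (B : ℕ → Subring A)
    (hB : ∀ a, ∃ k, a ∈ B k) (hN : ∀ k, IsNoetherianRing (B k) ∨ IsNoetherianRing (B k)ᵐᵒᵖ) :
    IsSemisimpleRing A := by
  classical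
  by_contra hss
  obtain ⟨f, hf, h0, ho⟩ := exists_idempotents (regular_of_dim h) hss
  choose s hs1 hs2 using fun x : ℕ → Bool =>
    separation_of_dim h f hf ho {n | x n = true}
  obtain ⟨k, hk⟩ := triangular (fun k => {x | s x ∈ B k}) (fun x => hB (s x))
  rcases hN k with hk' | hk'
  · -- left noetherian
    obtain ⟨y, n, hy1, hy2, hy3⟩ := hk true
    set c : ℕ → B k := fun j => ⟨1 - s (y j), (B k).sub_mem (B k).one_mem (hy1 j)⟩ with hc
    let L : ℕ →o Submodule (B k) (B k) :=
      ⟨fun j => Submodule.span (B k) (c '' {i | i < j}), fun i j hij =>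
        Submodule.span_mono (Set.image_mono fun a (ha : a < i) => lt_of_lt_of_le ha hij)⟩
    obtain ⟨N, hN'⟩ := (monotone_stabilizes_iff_noetherian (R := B k) (M := B k)).2 hk' L
    have h1 : c N ∈ Submodule.span (B k) (c '' {i | i < N}) := by
      have h2 : L N = L (N + 1) := hN' (N + 1) (Nat.le_succ N)
      have h3 : c N ∈ L (N + 1) := Submodule.subset_span ⟨N, Nat.lt_succ_self N, rfl⟩
      rw [← h2] at h3
      exact h3
    have h2 : (c N : A) * f (n N) = 0 := by
      refine Submodule.span_induction (p := fun (x : B k) _ => (x : A) * f (n N) = 0) ?_ ?_ ?_ ?_ h1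
      · rintro x ⟨i, hi, rfl⟩
        have h4 := hs2 (y i) (n N) (by
          show ¬ (y i (n N) = true)
          rw [hy3 i N hi]
          decide)
        show (1 - s (y i)) * f (n N) = 0
        rw [sub_mul, one_mul, h4, sub_self]
      · exact zero_mul _
      · intro a b _ _ ha hb
        show ((a : A) + (b : A)) * f (n N) = 0
        rw [add_mul, ha, hb, add_zero]
      · intro a b _ hb
        show ((a : A) * (b : A)) * f (n N) = 0
        rw [mul_assoc, hb, mul_zero]
    have h3 := hs1 (y N) (n N) (hy2 N)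
    have h4 : f (n N) * ((1 - s (y N)) * f (n N)) = 0 := by
      have : (1 - s (y N)) * f (n N) = 0 := h2
      rw [this, mul_zero]
    rw [← mul_assoc, mul_sub, mul_one, h3, sub_zero, hf] at h4
    exact h0 _ h4
  · -- right noetherian
    obtain ⟨y, n, hy1, hy2, hy3⟩ := hk false
    set c : ℕ → (B k)ᵐᵒᵖ := fun j => MulOpposite.op ⟨s (y j), hy1 j⟩ with hc
    let L : ℕ →o Submodule (B k)ᵐᵒᵖ (B k)ᵐᵒᵖ :=
      ⟨fun j => Submodule.span (B k)ᵐᵒᵖ (c '' {i | i < j}), fun i j hij =>
        Submodule.span_mono (Set.image_mono fun a (ha : a < i) => lt_of_lt_of_le ha hij)⟩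
    obtain ⟨N, hN'⟩ := (monotone_stabilizes_iff_noetherian (R := (B k)ᵐᵒᵖ) (M := (B k)ᵐᵒᵖ)).2 hk' L
    have h1 : c N ∈ Submodule.span (B k)ᵐᵒᵖ (c '' {i | i < N}) := by
      have h2 : L N = L (N + 1) := hN' (N + 1) (Nat.le_succ N)
      have h3 : c N ∈ L (N + 1) := Submodule.subset_span ⟨N, Nat.lt_succ_self N, rfl⟩
      rw [← h2] at h3
      exact h3
    have h2 : f (n N) * ((MulOpposite.unop (c N) : B k) : A) = 0 := by
      refine Submodule.span_induction (p := fun (x : (B k)ᵐᵒᵖ) _ => f (n N) * ((MulOpposite.unop x : B k) : A) = 0)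
        ?_ ?_ ?_ ?_ h1
      · rintro x ⟨i, hi, rfl⟩
        have h4 := hs1 (y i) (n N) (by
          show y i (n N) = true
          rw [hy3 i N hi]
          decide)
        exact h4
      · exact mul_zero _
      · intro a b _ _ ha hb
        show f (n N) * (((MulOpposite.unop a : B k) : A) + ((MulOpposite.unop b : B k) : A)) = 0
        rw [mul_add, ha, hb, add_zero]
      · intro a b _ hb
        show f (n N) * (((MulOpposite.unop b : B k) : A) * ((MulOpposite.unop a : B k) : A)) = 0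
        rw [← mul_assoc, hb, zero_mul]
    have h3 := hs2 (y N) (n N) (by
      show ¬ (y N (n N) = true)
      rw [hy2 N]
      decide)
    have h4 : f (n N) * s (y N) = 0 := h2
    have h5 : f (n N) * f (n N) = 0 := by
      nth_rewrite 2 [← h3]
      rw [← mul_assoc, h4, zero_mul]
    rw [hf] at h5
    exact h0 _ h5

end Pool.Agent.H128W
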